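/-
Definitions for the size of rigid modules over a finite-dimensional algebra (right modules over
`A` are left modules over `Aᵐᵒᵖ`).
-/
import Mathlib

namespace W450.Rig

open CategoryTheory CategoryTheory.Limits CategoryTheory.Abelian

universe u

/-- A right module `M` over `A` is `k`-rigid if `Ext^i(M, M) = 0` for `1 ≤ i ≤ k`. -/
def IsRigid (A : Type u) [Ring A] (k : ℕ) (M : ModuleCat.{u} Aᵐᵒᵖ) : Prop :=
  ∀ i : ℕ, 1 ≤ i → i ≤ k → Subsingleton (Ext M M i)

/-- The number of isomorphism classes of indecomposable direct summands of `M`. -/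
noncomputable def size {A : Type u} [Ring A] (M : ModuleCat.{u} Aᵐᵒᵖ) : ℕ∞ :=
  Set.encard {c : Quotient (isIsomorphicSetoid (ModuleCat.{u} Aᵐᵒᵖ)) |
    ∃ X Y : ModuleCat.{u} Aᵐᵒᵖ, Indecomposable X ∧ Nonempty (M ≅ X ⊞ Y) ∧ c = Quotient.mk _ X}

/-- `o_k(A)`: the supremum of the sizes of the finitely generated `k`-rigid right `A`-modules. -/
noncomputable def oSize (A : Type u) [Ring A] (k : ℕ) : ℕ∞ :=
  ⨆ (M : ModuleCat.{u} Aᵐᵒᵖ) (_ : Module.Finite Aᵐᵒᵖ M) (_ : IsRigid A k M), size M

/-- A ring is connected if it is nontrivial and its only central idempotents are `0` and `1`. -/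
def IsConnectedRing (A : Type u) [Ring A] : Prop :=
  Nontrivial A ∧ ∀ c : A, (∀ a : A, c * a = a * c) → c * c = c → c = 0 ∨ c = 1

/-- A family of pairwise non-isomorphic indecomposable finitely generated modules over `R`
all whose mutual (and self) `Ext^i`, `i ≥ 1`, vanish. -/
structure IsOrthFamily {R : Type u} [Ring R] (X : ℕ → ModuleCat.{u} R) : Prop where
  fin : ∀ n, Module.Finite R (X n)
  indec : ∀ n, Indecomposable (X n)
  inj : ∀ m n, Nonempty (X m ≅ X n) → m = n
  ext : ∀ m n i : ℕ, 1 ≤ i → Subsingleton (Ext (X m) (X n) i)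

end W450.Rig
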