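/-
From an infinite orthogonal family of rigid indecomposable modules to unbounded size of rigid
modules (auxiliary for the o_k question).
-/
import Pool.Agent.H3.Rig.RigDefs

namespace W450.Rig

open CategoryTheory CategoryTheory.Limits CategoryTheory.Abelian

universe u

section
variable {R : Type u} [Ring R]

/-- partial direct sums `X 0 ⊞ ... ⊞ X n` (left nested) -/
noncomputable def psum (X : ℕ → ModuleCat.{u} R) : ℕ → ModuleCat.{u} R
  | 0 => X 0
  | n + 1 => psum X n ⊞ X (n + 1)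

theorem ext_biprod_left {A B Y : ModuleCat.{u} R} {i : ℕ} (h1 : Subsingleton (Ext A Y i))
    (h2 : Subsingleton (Ext B Y i)) : Subsingleton (Ext (A ⊞ B) Y i) :=
  (Ext.biprodAddEquiv (X₁ := A) (X₂ := B) (Y := Y) (n := i)).toEquiv.subsingleton

theorem ext_biprod_right {A B Y : ModuleCat.{u} R} {i : ℕ} (h1 : Subsingleton (Ext Y A i))
    (h2 : Subsingleton (Ext Y B i)) : Subsingleton (Ext Y (A ⊞ B) i) :=
  (Ext.addEquivBiprod (X := Y) (Y₁ := A) (Y₂ := B) (n := i)).toEquiv.subsingleton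

theorem finite_biprod {A B : ModuleCat.{u} R} (h1 : Module.Finite R A)
    (h2 : Module.Finite R B) : Module.Finite R ((A ⊞ B : ModuleCat.{u} R)) :=
  Module.Finite.equiv (ModuleCat.biprodIsoProd A B).toLinearEquiv.symm

theorem psum_finite {X : ℕ → ModuleCat.{u} R} (hX : IsOrthFamily X) (n : ℕ) :
    Module.Finite R (psum X n) := by
  induction n with
  | zero => exact hX.fin 0
  | succ n ih => exact finite_biprod ih (hX.fin (n + 1))

theorem psum_ext_left {X : ℕ → ModuleCat.{u} R} (hX : IsOrthFamily X) (n m i : ℕ) (hi : 1 ≤ i) :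
    Subsingleton (Ext (psum X n) (X m) i) := by
  induction n with
  | zero => exact hX.ext 0 m i hi
  | succ n ih => exact ext_biprod_left ih (hX.ext (n + 1) m i hi)

theorem psum_ext {X : ℕ → ModuleCat.{u} R} (hX : IsOrthFamily X) (n m i : ℕ) (hi : 1 ≤ i) :
    Subsingleton (Ext (psum X n) (psum X m) i) := by
  induction m with
  | zero => exact psum_ext_left hX n 0 i hi
  | succ m ih => exact ext_biprod_right ih (psum_ext_left hX n (m + 1) i hi)

theorem psum_summand (X : ℕ → ModuleCat.{u} R) (n j : ℕ) (hj : j ≤ n) (hn : 1 ≤ n) :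
    ∃ Y : ModuleCat.{u} R, Nonempty (psum X n ≅ X j ⊞ Y) := by
  induction n with
  | zero => omega
  | succ n ih =>
    rcases Nat.lt_or_ge n j with h | h
    · obtain rfl : j = n + 1 := by omega
      exact ⟨psum X n, ⟨biprod.braiding (psum X n) (X (n + 1))⟩⟩
    · rcases Nat.eq_zero_or_pos n with h0 | h0
      · subst h0
        obtain rfl : j = 0 := by omega
        exact ⟨X 1, ⟨Iso.refl _⟩⟩
      · obtain ⟨Y, ⟨e⟩⟩ := ih h h0
        exact ⟨Y ⊞ X (n + 1), ⟨biprod.mapIso e (Iso.refl _) ≪≫ biprod.associator _ _ _⟩⟩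

end

theorem size_psum {A : Type u} [Ring A] {X : ℕ → ModuleCat.{u} Aᵐᵒᵖ} (hX : IsOrthFamily X)
    (n : ℕ) (hn : 1 ≤ n) : ((n + 1 : ℕ) : ℕ∞) ≤ size (psum X n) := by
  let f : Fin (n + 1) → Quotient (isIsomorphicSetoid (ModuleCat.{u} Aᵐᵒᵖ)) :=
    fun j => Quotient.mk _ (X j.1)
  have hf : Function.Injective f := by
    intro a b hab
    have h := Quotient.exact hab
    exact Fin.ext (hX.inj _ _ h)
  have hsub : Set.range f ⊆ {c : Quotient (isIsomorphicSetoid (ModuleCat.{u} Aᵐᵒᵖ)) |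
      ∃ V Y : ModuleCat.{u} Aᵐᵒᵖ, Indecomposable V ∧ Nonempty (psum X n ≅ V ⊞ Y) ∧
        c = Quotient.mk _ V} := by
    rintro _ ⟨j, rfl⟩
    obtain ⟨Y, hY⟩ := psum_summand X n j.1 (Nat.lt_succ_iff.mp j.2) hn
    exact ⟨X j.1, Y, hX.indec _, hY, rfl⟩
  calc ((n + 1 : ℕ) : ℕ∞) = ENat.card (Fin (n + 1)) := by simp
    _ ≤ (Set.range f).encard := hf.encard_range
    _ ≤ size (psum X n) := Set.encard_le_encard hsub

/-- An infinite family of pairwise non-isomorphic indecomposable modules with vanishing mutual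
extensions gives rigid modules of every size; hence `o_k = ⊤` for every `k`. -/
theorem unbounded_of_family (A : Type u) [Ring A] (X : ℕ → ModuleCat.{u} Aᵐᵒᵖ)
    (hX : IsOrthFamily X) :
    (∀ N : ℕ, ∃ M : ModuleCat.{u} Aᵐᵒᵖ, Module.Finite Aᵐᵒᵖ M ∧
      (∀ i, 1 ≤ i → Subsingleton (Ext M M i)) ∧ (N : ℕ∞) ≤ size M) ∧ ∀ k, oSize A k = ⊤ := by
  have h1 : ∀ N : ℕ, ∃ M : ModuleCat.{u} Aᵐᵒᵖ, Module.Finite Aᵐᵒᵖ M ∧
      (∀ i, 1 ≤ i → Subsingleton (Ext M M i)) ∧ (N : ℕ∞) ≤ size M := by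
    intro N
    refine ⟨psum X (N + 1), psum_finite hX _, fun i hi => psum_ext hX _ _ i hi, ?_⟩
    refine le_trans ?_ (size_psum hX (N + 1) (by omega))
    exact_mod_cast (by omega : N ≤ N + 1 + 1)
  refine ⟨h1, fun k => ?_⟩
  refine ENat.eq_top_iff_forall_ge.2 fun N => ?_
  obtain ⟨M, hM, hE, hs⟩ := h1 N
  refine le_trans hs ?_
  exact le_iSup_of_le M (le_iSup_of_le hM (le_iSup_of_le (fun i hi _ => hE i hi) le_rfl))

end W450.Rig
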