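/-
Operator expressions and the kernel-checked identities between them.
-/
import Pool.Agent.H3.Rig.RigEx

namespace W450.Rig
namespace X

/-- table 0 -/
def Ra : Ex := Ex.tab 0
/-- table 1 -/
def Rb : Ex := Ex.tab 1
/-- table 2 -/
def RA : Ex := Ex.tab 2
/-- table 3 -/
def RB : Ex := Ex.tab 3
/-- table 4 -/
def Rf : Ex := Ex.tab 4
/-- table 5 -/
def Rh : Ex := Ex.tab 5
/-- table 6 -/
def Rz : Ex := Ex.tab 6
/-- table 7 -/
def P00 : Ex := Ex.tab 7
/-- table 8 -/
def P01 : Ex := Ex.tab 8
/-- table 9 -/
def P02 : Ex := Ex.tab 9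
/-- table 10 -/
def P10 : Ex := Ex.tab 10
/-- table 11 -/
def P11 : Ex := Ex.tab 11
/-- table 12 -/
def P12 : Ex := Ex.tab 12
/-- table 13 -/
def La : Ex := Ex.tab 13
/-- table 14 -/
def Lb : Ex := Ex.tab 14
/-- table 15 -/
def LA : Ex := Ex.tab 15
/-- table 16 -/
def LB : Ex := Ex.tab 16
/-- table 17 -/
def Lf : Ex := Ex.tab 17
/-- table 18 -/
def Lh : Ex := Ex.tab 18
/-- table 19 -/
def Lz : Ex := Ex.tab 19
/-- table 20 -/
def T00 : Ex := Ex.tab 20
/-- table 21 -/
def T01 : Ex := Ex.tab 21
/-- table 22 -/
def T02 : Ex := Ex.tab 22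
/-- table 23 -/
def T10 : Ex := Ex.tab 23
/-- table 24 -/
def T11 : Ex := Ex.tab 24
/-- table 25 -/
def T12 : Ex := Ex.tab 25
/-- table 26 -/
def sg : Ex := Ex.tab 26
/-- table 27 -/
def ta : Ex := Ex.tab 27
/-- table 28 -/
def ka : Ex := Ex.tab 28
/-- table 29 -/
def p1 : Ex := Ex.tab 29
/-- table 30 -/
def g0 : Ex := Ex.tab 30
/-- table 31 -/
def g1 : Ex := Ex.tab 31
/-- table 32 -/
def g2 : Ex := Ex.tab 32
/-- table 33 -/
def r0 : Ex := Ex.tab 33
/-- table 34 -/
def r1 : Ex := Ex.tab 34
/-- table 35 -/
def rp : Ex := Ex.tab 35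
/-- table 36 -/
def q1 : Ex := Ex.tab 36
/-- table 37 -/
def qf : Ex := Ex.tab 37
/-- table 38 -/
def qh : Ex := Ex.tab 38
/-- table 39 -/
def qff : Ex := Ex.tab 39
/-- table 40 -/
def qhf : Ex := Ex.tab 40
/-- table 41 -/
def qhh : Ex := Ex.tab 41
/-- table 42 -/
def a0 : Ex := Ex.tab 42
/-- table 43 -/
def a1 : Ex := Ex.tab 43
/-- table 44 -/
def b0 : Ex := Ex.tab 44
/-- table 45 -/
def b1 : Ex := Ex.tab 45
/-- table 46 -/
def b2 : Ex := Ex.tab 46
/-- table 47 -/
def zz : Ex := Ex.tab 47

/-- letter -/
def h : Ex := Ex.ltr 0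
/-- letter -/
def f : Ex := Ex.ltr 1
/-- letter -/
def e : Ex := Ex.ltr 2

/-- The operator `R_b - e R_a`. -/
def EE : Ex := Rb - e * Ra
/-- The operator `R_f - f R_z`. -/
def FF : Ex := Rf - f * Rz
/-- The operator `R_h - h R_z`. -/
def HH : Ex := Rh - h * Rz
/-- The operator `R_A + e R_B`. -/
def WW : Ex := RA + e * RB
/-- The coordinate reading operator. -/
def GG : Ex := g0 + f * g1 + h * g2
/-- The coordinate reading operator. -/
def RH : Ex := r0 + h * r1
/-- The evaluation operator. -/
def EPS : Ex := q1 + f * qf + h * qh + f * f * qff + h * f * qhf + h * h * qhh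
/-- homotopy -/
def SF : Ex := a0 + f * a1
/-- homotopy -/
def SH : Ex := b0 + h * b1 + f * b2
/-- The quotient map. -/
def QQ : Ex := EPS * ta * WW * P00

end X
open X

/-- The zero operator. -/
def Z : Ex := Ex.smul 0 1

theorem id_EW : (EE * WW - (Z)).chk = true := by decide +kernel
theorem id_WE : (WW * EE - (Z)).chk = true := by decide +kernel
theorem id_FE : (FF * EE - (EE * FF - HH * Ra)).chk = true := by decide +kernel
theorem id_HE : (HH * EE - (EE * (HH + Rz))).chk = true := by decide +kernel
theorem id_WH : (WW * HH - ((HH + Rz) * WW)).chk = true := by decide +kernel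
theorem id_WRa : (WW * Ra - (RB * EE)).chk = true := by decide +kernel
theorem id_WF : (WW * FF - (FF * WW - (HH + Rz) * RB)).chk = true := by decide +kernel
theorem id_RaW : (Ra * WW - (EE * RB)).chk = true := by decide +kernel
theorem id_RBH : (RB * HH - ((HH + Rz + Rz) * RB)).chk = true := by decide +kernel
theorem id_HF : (HH * FF - (FF * HH - FF * Rz - RA * Ra * Rz * Rz)).chk = true := by decide +kernel
theorem id_FRB : (FF * RB - (RB * FF)).chk = true := by decide +kernel
theorem id_HRa : (HH * Ra - (Ra * HH)).chk = true := by decide +kernel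
theorem id_FRa : (FF * Ra - (Ra * FF)).chk = true := by decide +kernel
theorem id_RfRa : (Rf * Ra - (Ra * Rf)).chk = true := by decide +kernel
theorem id_RhRa : (Rh * Ra - (Ra * Rh)).chk = true := by decide +kernel
theorem id_zRa : (Rz * Ra - (Ra * Rz)).chk = true := by decide +kernel
theorem id_zRb : (Rz * Rb - (Rb * Rz)).chk = true := by decide +kernel
theorem id_zRA : (Rz * RA - (RA * Rz)).chk = true := by decide +kernel
theorem id_zRB : (Rz * RB - (RB * Rz)).chk = true := by decide +kernel
theorem id_zRf : (Rz * Rf - (Rf * Rz)).chk = true := by decide +kernel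
theorem id_zRh : (Rz * Rh - (Rh * Rz)).chk = true := by decide +kernel
theorem id_hom0 : (EE * sg + ta * WW - (P00 + P01 + P02)).chk = true := by decide +kernel
theorem id_hom1 : (sg * EE + WW * ta - (P10 + P11 + P12)).chk = true := by decide +kernel
theorem id_sgP0 : (sg * P00 - (P10 * sg)).chk = true := by decide +kernel
theorem id_taP0 : (ta * P10 - (P00 * ta)).chk = true := by decide +kernel
theorem id_RaP0 : (Ra * P10 - (P00 * Ra)).chk = true := by decide +kernel
theorem id_RbP0 : (Rb * P10 - (P00 * Rb)).chk = true := by decide +kernel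
theorem id_RAP0 : (RA * P00 - (P10 * RA)).chk = true := by decide +kernel
theorem id_RBP0 : (RB * P00 - (P10 * RB)).chk = true := by decide +kernel
theorem id_sgP1 : (sg * P01 - (P11 * sg)).chk = true := by decide +kernel
theorem id_taP1 : (ta * P11 - (P01 * ta)).chk = true := by decide +kernel
theorem id_RaP1 : (Ra * P11 - (P01 * Ra)).chk = true := by decide +kernel
theorem id_RbP1 : (Rb * P11 - (P01 * Rb)).chk = true := by decide +kernel
theorem id_RAP1 : (RA * P01 - (P11 * RA)).chk = true := by decide +kernel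
theorem id_RBP1 : (RB * P01 - (P11 * RB)).chk = true := by decide +kernel
theorem id_sgP2 : (sg * P02 - (P12 * sg)).chk = true := by decide +kernel
theorem id_taP2 : (ta * P12 - (P02 * ta)).chk = true := by decide +kernel
theorem id_RaP2 : (Ra * P12 - (P02 * Ra)).chk = true := by decide +kernel
theorem id_RbP2 : (Rb * P12 - (P02 * Rb)).chk = true := by decide +kernel
theorem id_RAP2 : (RA * P02 - (P12 * RA)).chk = true := by decide +kernel
theorem id_RBP2 : (RB * P02 - (P12 * RB)).chk = true := by decide +kernel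
theorem id_RfP00 : (Rf * P01 - (P00 * Rf)).chk = true := by decide +kernel
theorem id_RhP00 : (Rh * P01 - (P00 * Rh)).chk = true := by decide +kernel
theorem id_RzP00 : (Rz * P01 - (P00 * Rz)).chk = true := by decide +kernel
theorem id_RfP01 : (Rf * P02 - (P01 * Rf)).chk = true := by decide +kernel
theorem id_RhP01 : (Rh * P02 - (P01 * Rh)).chk = true := by decide +kernel
theorem id_RzP01 : (Rz * P02 - (P01 * Rz)).chk = true := by decide +kernel
theorem id_RfP10 : (Rf * P11 - (P10 * Rf)).chk = true := by decide +kernel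
theorem id_RhP10 : (Rh * P11 - (P10 * Rh)).chk = true := by decide +kernel
theorem id_RzP10 : (Rz * P11 - (P10 * Rz)).chk = true := by decide +kernel
theorem id_RfP11 : (Rf * P12 - (P11 * Rf)).chk = true := by decide +kernel
theorem id_RhP11 : (Rh * P12 - (P11 * Rh)).chk = true := by decide +kernel
theorem id_RzP11 : (Rz * P12 - (P11 * Rz)).chk = true := by decide +kernel
theorem id_PP00_00 : (P00 * P00 - (P00)).chk = true := by decide +kernel
theorem id_PP00_01 : (P00 * P01 - (Z)).chk = true := by decide +kernel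
theorem id_PP00_02 : (P00 * P02 - (Z)).chk = true := by decide +kernel
theorem id_PP00_10 : (P00 * P10 - (Z)).chk = true := by decide +kernel
theorem id_PP00_11 : (P00 * P11 - (Z)).chk = true := by decide +kernel
theorem id_PP00_12 : (P00 * P12 - (Z)).chk = true := by decide +kernel
theorem id_PP01_01 : (P01 * P01 - (P01)).chk = true := by decide +kernel
theorem id_PP01_02 : (P01 * P02 - (Z)).chk = true := by decide +kernel
theorem id_PP01_10 : (P01 * P10 - (Z)).chk = true := by decide +kernel
theorem id_PP01_11 : (P01 * P11 - (Z)).chk = true := by decide +kernel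
theorem id_PP01_12 : (P01 * P12 - (Z)).chk = true := by decide +kernel
theorem id_PP02_02 : (P02 * P02 - (P02)).chk = true := by decide +kernel
theorem id_PP02_10 : (P02 * P10 - (Z)).chk = true := by decide +kernel
theorem id_PP02_11 : (P02 * P11 - (Z)).chk = true := by decide +kernel
theorem id_PP02_12 : (P02 * P12 - (Z)).chk = true := by decide +kernel
theorem id_PP10_10 : (P10 * P10 - (P10)).chk = true := by decide +kernel
theorem id_PP10_11 : (P10 * P11 - (Z)).chk = true := by decide +kernel
theorem id_PP10_12 : (P10 * P12 - (Z)).chk = true := by decide +kernel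
theorem id_PP11_11 : (P11 * P11 - (P11)).chk = true := by decide +kernel
theorem id_PP11_12 : (P11 * P12 - (Z)).chk = true := by decide +kernel
theorem id_PP12_12 : (P12 * P12 - (P12)).chk = true := by decide +kernel
theorem id_tap1 : (ta * p1 - (ta)).chk = true := by decide +kernel
theorem id_G1 : (GG * (HH + Rz) - (Z)).chk = true := by decide +kernel
theorem id_G2 : ((p1 - p1 * HH * WW * ka) * P11 - (GG * FF * P11)).chk = true := by decide +kernel
theorem id_kaP : (ka * P11 - (P02 * ka)).chk = true := by decide +kernel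
theorem id_rho : (RH * (HH + Rz) * P11 - (p1 * P11)).chk = true := by decide +kernel
theorem id_rp : (rp * HH * P12 - (p1 * P12)).chk = true := by decide +kernel
theorem id_P00 : (P00 - (EE * sg * P00 + (EPS + FF * SF + HH * SH) * ta * WW * P00)).chk = true := by decide +kernel
theorem id_QE : (QQ * EE - (Z)).chk = true := by decide +kernel
theorem id_QH : (QQ * HH - (Z)).chk = true := by decide +kernel
theorem id_QF : (QQ * FF - (Z)).chk = true := by decide +kernel
theorem id_SFP : (SF * P00 - (P01 * SF)).chk = true := by decide +kernel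
theorem id_SHP : (SH * P00 - (P01 * SH)).chk = true := by decide +kernel

end W450.Rig
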