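/-
The algebra (centralizer of the right multiplications), its action on `Fin 120 → V`,
and the fact that `Fin 120 → K` is free of rank one.
-/
import Pool.Agent.H3.Rig.RigIds

namespace W450.Rig

open Module

universe u

section
variable (K : Type u) [Field K]

/-- The matrices of the right multiplications by the generators and the vertex idempotents. -/
def rset : Set (Matrix B B K) := {M | ∃ n < 13, M = tmat K n}

/-- The matrices commuting with the right multiplications. -/
def Cen : Subalgebra K (Matrix B B K) := Subalgebra.centralizer K (rset K)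

/-- The algebra of the counterexample. -/
abbrev Alg : Type u := (Cen K)ᵐᵒᵖ

/-- Its opposite: modules over it are the right modules over `Alg K`. -/
abbrev Rg : Type u := (Alg K)ᵐᵒᵖ

/-- The matrix of an element. -/
def phi : Rg K →+* Matrix B B K where
  toFun r := (r.unop.unop : Cen K)
  map_one' := rfl
  map_mul' _ _ := rfl
  map_zero' := rfl
  map_add' _ _ := rfl

theorem phi_inj : Function.Injective (phi K) := by
  intro a b h
  apply MulOpposite.unop_injective
  apply MulOpposite.unop_injective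
  exact Subtype.ext h

theorem phi_comm (r : Rg K) (n : ℕ) (hn : n < 13) :
    phi K r * tmat K n = tmat K n * phi K r := by
  have h : ((r.unop.unop : Cen K) : Matrix B B K) ∈ Subalgebra.centralizer K (rset K) :=
    r.unop.unop.2
  rw [Subalgebra.mem_centralizer_iff] at h
  exact (h (tmat K n) ⟨n, hn, rfl⟩).symm

/-- The element of a matrix in the centralizer. -/
def mkR (M : Matrix B B K) (h : M ∈ Cen K) : Rg K := MulOpposite.op (MulOpposite.op ⟨M, h⟩)

theorem phi_mkR (M : Matrix B B K) (h : M ∈ Cen K) : phi K (mkR K M h) = M := rfl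

/-- The action of matrices as a ring homomorphism. -/
def tactHom (V : Type u) [AddCommGroup V] [Module K V] :
    Matrix B B K →+* Module.End K (B → V) where
  toFun M := tact M
  map_one' := tact_one
  map_mul' := tact_mul
  map_zero' := by
    refine LinearMap.ext fun x => ?_
    funext i
    simp [tact_apply]
  map_add' := tact_add

end

variable {K : Type u} [Field K]
variable {V : Type u} [AddCommGroup V] [Module K V]
variable {V' : Type u} [AddCommGroup V'] [Module K V']
variable {V'' : Type u} [AddCommGroup V''] [Module K V'']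

instance rgModule : Module (Rg K) (B → V) :=
  Module.compHom (B → V) ((tactHom K V).comp (phi K))

theorem rg_smul (r : Rg K) (x : B → V) : r • x = tact (phi K r) x := rfl

instance rgTower : IsScalarTower K (Rg K) (B → V) where
  smul_assoc c r x := by
    rw [rg_smul, rg_smul]
    have : phi K (c • r) = c • phi K r := rfl
    rw [this, tact_smul]
    rfl

theorem tact_lact (M : Matrix B B K) (m : V →ₗ[K] V') (x : B → V) :
    tact M (lact m x) = lact m (tact M x) := by
  funext i
  simp [tact_apply, lact_apply]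

theorem lact_lact (m : V →ₗ[K] V') (m' : V' →ₗ[K] V'') (x : B → V) :
    lact m' (lact m x) = lact (m' ∘ₗ m) x := rfl

/-- Coordinatewise maps are linear over the algebra. -/
def lactR (m : V →ₗ[K] V') : (B → V) →ₗ[Rg K] (B → V') where
  toFun x := lact m x
  map_add' := map_add _
  map_smul' r x := (tact_lact (phi K r) m x).symm

theorem lactR_apply (m : V →ₗ[K] V') (x : B → V) : lactR m x = lact m x := rfl

/-- The expressions giving maps linear over the algebra. -/
def Ex.rt : Ex → Bool
  | .one => true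
  | .tab n => Nat.blt n 13
  | .ltr _ => true
  | .mul a b => Ex.rt a && Ex.rt b
  | .add a b => Ex.rt a && Ex.rt b
  | .smul _ a => Ex.rt a

theorem SL.ev_rsmul (S : SL K V) (x : Ex) (hx : x.rt = true) (r : Rg K) (y : B → V) :
    S.ev x (r • y) = r • S.ev x y := by
  induction x generalizing y with
  | one => rfl
  | tab n =>
    have hn : n < 13 := by simpa [Ex.rt] using hx
    show tact (tmat K n) (tact (phi K r) y) = tact (phi K r) (tact (tmat K n) y)
    have h1 := phi_comm K r n hn
    have h2 := congrArg (fun M => (tact M : Module.End K (B → V)) y) h1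
    simp only [tact_mul, Module.End.mul_apply] at h2
    exact h2.symm
  | ltr k => exact (tact_lact (phi K r) (S.L k) y).symm
  | mul a b iha ihb =>
    simp only [Ex.rt, Bool.and_eq_true] at hx
    show S.ev a (S.ev b (r • y)) = r • S.ev a (S.ev b y)
    rw [ihb hx.2, iha hx.1]
  | add a b iha ihb =>
    simp only [Ex.rt, Bool.and_eq_true] at hx
    show S.ev a (r • y) + S.ev b (r • y) = r • (S.ev a y + S.ev b y)
    rw [ihb hx.2, iha hx.1, smul_add]
  | smul c a iha =>
    simp only [Ex.rt] at hx
    show c • S.ev a (r • y) = r • (c • S.ev a y)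
    rw [iha hx, smul_comm]

/-- The linear map of an expression, linear over the algebra. -/
def SL.evR (S : SL K V) (x : Ex) (hx : x.rt = true) : (B → V) →ₗ[Rg K] (B → V) where
  toFun := S.ev x
  map_add' := map_add _
  map_smul' := S.ev_rsmul x hx

theorem SL.evR_apply (S : SL K V) (x : Ex) (hx : x.rt = true) (y : B → V) :
    S.evR x hx y = S.ev x y := rfl

/-! ### The left multiplications -/

/-- The trivial representation. -/
def trivSL (K : Type u) [Field K] : SL K K where
  e := 0
  f := 0
  h := 0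
  fe := by simp
  eh := by simp
  hf := by simp

theorem tact_single (M : Matrix B B K) (j : B) (v : V) (i : B) :
    tact M (Pi.single j v) i = M i j • v := by
  rw [tact_apply, Finset.sum_eq_single j]
  · simp
  · intro k _ hk
    simp [hk]
  · simp

theorem tact_inj {M N : Matrix B B K}
    (h : (tact M : Module.End K (B → K)) = tact N) : M = N := by
  ext i j
  have h1 := congrFun (LinearMap.congr_fun h (Pi.single j (1 : K))) i
  rw [tact_single, tact_single] at h1
  simpa using h1

theorem comm_chk : ((List.range 13).all fun n => (List.range 13).all fun m =>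
    Ex.chk (Ex.tab (13 + n) * Ex.tab m - Ex.tab m * Ex.tab (13 + n))) = true := by
  decide +kernel

theorem tmat_mem (n : ℕ) (h1 : 13 ≤ n) (h2 : n < 26) : tmat K n ∈ Cen K := by
  rw [Cen, Subalgebra.mem_centralizer_iff]
  rintro _ ⟨m, hm, rfl⟩
  apply tact_inj
  have h3 := comm_chk
  rw [List.all_eq_true] at h3
  have h4 := h3 (n - 13) (List.mem_range.2 (by omega))
  rw [List.all_eq_true] at h4
  have h5 := h4 m (List.mem_range.2 hm)
  have h6 : 13 + (n - 13) = n := by omega
  rw [h6] at h5
  have h7 := (trivSL K).ev_eq _ _ h5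
  rw [tact_mul, tact_mul]
  exact h7.symm

/-- Product of tables. -/
def Ex.word : List ℕ → Ex
  | [] => .one
  | n :: w => .mul (.tab n) (Ex.word w)

/-- Product of the matrices of tables. -/
def wmat (K : Type u) [Field K] : List ℕ → Matrix B B K
  | [] => 1
  | n :: w => tmat K n * wmat K w

theorem SL.ev_word (S : SL K V) (w : List ℕ) : S.ev (Ex.word w) = tact (wmat K w) := by
  induction w with
  | nil => exact tact_one.symm
  | cons n w ih =>
    show tact (tmat K n) * S.ev (Ex.word w) = _
    rw [ih, wmat, tact_mul]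

theorem wmat_mem (w : List ℕ) (h : w.all (fun n => Nat.ble 13 n && Nat.blt n 26) = true) :
    wmat K w ∈ Cen K := by
  induction w with
  | nil => exact one_mem _
  | cons n w ih =>
    simp only [List.all_cons, Bool.and_eq_true] at h
    refine mul_mem (tmat_mem n ?_ ?_) (ih h.2)
    · exact Nat.le_of_ble_eq_true h.1.1
    · have := h.1.2
      simpa using this

/-- Left words. -/
def lwords : List (List ℕ) := [
  [20], [19, 20], [17, 20], [18, 20], [19, 19, 20], [17, 19, 20], [18, 19, 20], [17, 17, 20],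
  [18, 17, 20], [18, 18, 20], [21], [19, 21], [17, 21], [18, 21], [22], [15, 13, 20],
  [19, 15, 13, 20], [17, 15, 13, 20], [18, 15, 13, 20], [19, 19, 15, 13, 20],
  [17, 19, 15, 13, 20], [18, 19, 15, 13, 20], [17, 17, 15, 13, 20], [18, 17, 15, 13, 20],
  [18, 18, 15, 13, 20], [15, 13, 21], [19, 15, 13, 21], [17, 15, 13, 21], [18, 15, 13, 21],
  [15, 13, 22], [13, 20], [19, 13, 20], [17, 13, 20], [18, 13, 20], [19, 19, 13, 20],
  [17, 19, 13, 20], [18, 19, 13, 20], [17, 17, 13, 20], [18, 17, 13, 20], [18, 18, 13, 20],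
  [13, 21], [19, 13, 21], [17, 13, 21], [18, 13, 21], [13, 22], [14, 20], [19, 14, 20],
  [17, 14, 20], [18, 14, 20], [19, 19, 14, 20], [17, 19, 14, 20], [18, 19, 14, 20],
  [17, 17, 14, 20], [18, 17, 14, 20], [18, 18, 14, 20], [14, 21], [19, 14, 21], [17, 14, 21],
  [18, 14, 21], [14, 22], [15, 23], [19, 15, 23], [17, 15, 23], [18, 15, 23], [19, 19, 15, 23],
  [17, 19, 15, 23], [18, 19, 15, 23], [17, 17, 15, 23], [18, 17, 15, 23], [18, 18, 15, 23],
  [15, 24], [19, 15, 24], [17, 15, 24], [18, 15, 24], [15, 25], [16, 23], [19, 16, 23],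
  [17, 16, 23], [18, 16, 23], [19, 19, 16, 23], [17, 19, 16, 23], [18, 19, 16, 23],
  [17, 17, 16, 23], [18, 17, 16, 23], [18, 18, 16, 23], [16, 24], [19, 16, 24], [17, 16, 24],
  [18, 16, 24], [16, 25], [23], [19, 23], [17, 23], [18, 23], [19, 19, 23], [17, 19, 23],
  [18, 19, 23], [17, 17, 23], [18, 17, 23], [18, 18, 23], [24], [19, 24], [17, 24], [18, 24],
  [25], [13, 15, 23], [19, 13, 15, 23], [17, 13, 15, 23], [18, 13, 15, 23], [19, 19, 13, 15, 23],
  [17, 19, 13, 15, 23], [18, 19, 13, 15, 23], [17, 17, 13, 15, 23], [18, 17, 13, 15, 23],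
  [18, 18, 13, 15, 23], [13, 15, 24], [19, 13, 15, 24], [17, 13, 15, 24], [18, 13, 15, 24],
  [13, 15, 25]]

/-- Right words. -/
def rwords : List (List ℕ) := [
  [7], [6, 8], [4, 8], [5, 8], [6, 6, 9], [6, 4, 9], [6, 5, 9], [4, 4, 9], [4, 5, 9], [5, 5, 9],
  [8], [6, 9], [4, 9], [5, 9], [9], [0, 2, 7], [0, 2, 6, 8], [0, 2, 4, 8], [0, 2, 5, 8],
  [0, 2, 6, 6, 9], [0, 2, 6, 4, 9], [0, 2, 6, 5, 9], [0, 2, 4, 4, 9], [0, 2, 4, 5, 9],
  [0, 2, 5, 5, 9], [0, 2, 8], [0, 2, 6, 9], [0, 2, 4, 9], [0, 2, 5, 9], [0, 2, 9], [0, 10],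
  [0, 6, 11], [0, 4, 11], [0, 5, 11], [0, 6, 6, 12], [0, 6, 4, 12], [0, 6, 5, 12], [0, 4, 4, 12],
  [0, 4, 5, 12], [0, 5, 5, 12], [0, 11], [0, 6, 12], [0, 4, 12], [0, 5, 12], [0, 12], [1, 10],
  [1, 6, 11], [1, 4, 11], [1, 5, 11], [1, 6, 6, 12], [1, 6, 4, 12], [1, 6, 5, 12], [1, 4, 4, 12],
  [1, 4, 5, 12], [1, 5, 5, 12], [1, 11], [1, 6, 12], [1, 4, 12], [1, 5, 12], [1, 12], [2, 7],
  [2, 6, 8], [2, 4, 8], [2, 5, 8], [2, 6, 6, 9], [2, 6, 4, 9], [2, 6, 5, 9], [2, 4, 4, 9],
  [2, 4, 5, 9], [2, 5, 5, 9], [2, 8], [2, 6, 9], [2, 4, 9], [2, 5, 9], [2, 9], [3, 7], [3, 6, 8],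
  [3, 4, 8], [3, 5, 8], [3, 6, 6, 9], [3, 6, 4, 9], [3, 6, 5, 9], [3, 4, 4, 9], [3, 4, 5, 9],
  [3, 5, 5, 9], [3, 8], [3, 6, 9], [3, 4, 9], [3, 5, 9], [3, 9], [10], [6, 11], [4, 11], [5, 11],
  [6, 6, 12], [6, 4, 12], [6, 5, 12], [4, 4, 12], [4, 5, 12], [5, 5, 12], [11], [6, 12], [4, 12],
  [5, 12], [12], [2, 0, 10], [2, 0, 6, 11], [2, 0, 4, 11], [2, 0, 5, 11], [2, 0, 6, 6, 12],
  [2, 0, 6, 4, 12], [2, 0, 6, 5, 12], [2, 0, 4, 4, 12], [2, 0, 4, 5, 12], [2, 0, 5, 5, 12],
  [2, 0, 11], [2, 0, 6, 12], [2, 0, 4, 12], [2, 0, 5, 12], [2, 0, 12]]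

/-- The formal sum of the vertex idempotents. -/
def onesF : FS := [(1, [], 0), (1, [], 10), (1, [], 14), (1, [], 90), (1, [], 100), (1, [], 104)]

/-- The unit element tensor a vector. -/
def oneV (v : V) : B → V :=
  fun i => if (i : ℕ) = 0 ∨ (i : ℕ) = 10 ∨ (i : ℕ) = 14 ∨ (i : ℕ) = 90 ∨ (i : ℕ) = 100 ∨
    (i : ℕ) = 104 then v else 0

theorem SL.val_ones (S : SL K V) (v : V) : S.val onesF v = oneV v := by
  funext i
  simp only [onesF, SL.val, SL.wd, oneV, Pi.add_apply, add_zero, one_smul,
    Module.End.one_apply]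
  by_cases h0 : (i : ℕ) = 0
  · simp [h0]
  by_cases h1 : (i : ℕ) = 10
  · simp [h1]
  by_cases h2 : (i : ℕ) = 14
  · simp [h2]
  by_cases h3 : (i : ℕ) = 90
  · simp [h3]
  by_cases h4 : (i : ℕ) = 100
  · simp [h4]
  by_cases h5 : (i : ℕ) = 104
  · simp [h5]
  simp [h0, h1, h2, h3, h4, h5]

/-- Check of the words. -/
def wchk (ws : List (List ℕ)) (lo hi : ℕ) : Bool := (List.range 120).all fun b =>
  (ws.getD b []).all (fun n => Nat.ble lo n && Nat.blt n hi) &&
  zchk (nfF ((Ex.word (ws.getD b [])).row onesF ++ [(-1, [], b)]))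

theorem lwords_chk : wchk lwords 13 26 = true := by decide +kernel

theorem rwords_chk : wchk rwords 0 13 = true := by decide +kernel

theorem SL.val_basis (S : SL K V) (b : B) (v : V) :
    S.val [(-1, [], (b : ℕ))] v = - (Pi.single b v : B → V) := by
  funext i
  simp only [SL.val, SL.wd, Pi.add_apply, Pi.zero_apply, add_zero,
    Module.End.one_apply, Pi.neg_apply]
  by_cases hi : i = b
  · subst hi; simp
  · have : (i : ℕ) ≠ (b : ℕ) := fun h' => hi (Fin.ext h')
    simp [hi, this]

theorem word_ones (S : SL K V) {ws : List (List ℕ)} {lo hi : ℕ} (h : wchk ws lo hi = true)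
    (b : B) (v : V) :
    (ws.getD b []).all (fun n => Nat.ble lo n && Nat.blt n hi) = true ∧
    S.ev (Ex.word (ws.getD b [])) (oneV v) = Pi.single b v := by
  rw [wchk, List.all_eq_true] at h
  have h1 := h b (List.mem_range.2 b.isLt)
  rw [Bool.and_eq_true] at h1
  refine ⟨h1.1, ?_⟩
  have h2 := S.val_eq_zero _ h1.2 v
  rw [S.nfF_sound, S.val_append, S.val_basis, ← S.ev_val, S.val_ones] at h2
  exact sub_eq_zero.1 (by rw [sub_eq_add_neg]; exact h2)

/-- The basis element `b` of the algebra. -/
def lam (K : Type u) [Field K] (b : B) : Rg K :=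
  mkR K (wmat K (lwords.getD b [])) (wmat_mem _ (word_ones (trivSL K) lwords_chk b 1).1)

theorem lam_oneV (S : SL K V) (b : B) (v : V) : lam K b • (oneV v : B → V) = Pi.single b v := by
  rw [rg_smul]
  show tact (wmat K _) _ = _
  rw [← S.ev_word]
  exact (word_ones S lwords_chk b v).2

theorem Ex.word_rt (w : List ℕ) (h : w.all (fun n => Nat.ble 0 n && Nat.blt n 13) = true) :
    (Ex.word w).rt = true := by
  induction w with
  | nil => rfl
  | cons n w ih =>
    simp only [List.all_cons, Bool.and_eq_true] at h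
    simp only [Ex.word, Ex.rt, Bool.and_eq_true]
    exact ⟨h.1.2, ih h.2⟩

/-- The expression whose operator sends the unit to the basis element `b`. -/
def rword (b : B) : Ex := Ex.word (rwords.getD b [])

theorem rword_rt (b : B) : (rword b).rt = true :=
  Ex.word_rt _ (word_ones (trivSL ℚ) rwords_chk b 1).1

theorem rword_oneV (S : SL K V) (b : B) (v : V) :
    S.ev (rword b) (oneV v) = Pi.single b v := (word_ones S rwords_chk b v).2

theorem smul_oneV_inj {r s : Rg K} (h : r • (oneV 1 : B → K) = s • (oneV 1 : B → K)) :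
    r = s := by
  apply phi_inj
  ext i j
  have h1 : r • (Pi.single j 1 : B → K) = s • (Pi.single j 1 : B → K) := by
    rw [← rword_oneV (trivSL K) j (1 : K), ← (trivSL K).ev_rsmul _ (rword_rt j),
      ← (trivSL K).ev_rsmul _ (rword_rt j), h]
  have h2 := congrFun h1 i
  rw [rg_smul, rg_smul, tact_single, tact_single] at h2
  simpa using h2

/-- Evaluation at the unit. -/
def evOne (K : Type u) [Field K] : Rg K →ₗ[Rg K] (B → K) where
  toFun r := r • (oneV 1 : B → K)
  map_add' r s := add_smul _ _ _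
  map_smul' r s := by
    show (r • s) • (oneV 1 : B → K) = r • (s • (oneV 1 : B → K))
    rw [smul_assoc]

theorem evOne_apply (r : Rg K) : evOne K r = r • (oneV 1 : B → K) := rfl

theorem evOne_bij : Function.Bijective (evOne K) := by
  constructor
  · intro r s h
    exact smul_oneV_inj h
  · intro x
    refine ⟨∑ b, x b • lam K b, ?_⟩
    rw [evOne_apply, Finset.sum_smul]
    funext i
    rw [Finset.sum_apply, Finset.sum_eq_single i]
    · rw [smul_assoc, lam_oneV (trivSL K)]
      simp
    · intro b _ hb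
      rw [smul_assoc, lam_oneV (trivSL K)]
      simp [hb.symm]
    · simp

/-- `Fin 120 → K` is free of rank one. -/
noncomputable def evOneEquiv (K : Type u) [Field K] : Rg K ≃ₗ[Rg K] (B → K) :=
  LinearEquiv.ofBijective (evOne K) evOne_bij

instance : Module.Free (Rg K) (B → K) := Module.Free.of_equiv (evOneEquiv K)

instance : Module.Finite (Rg K) (B → K) := Module.Finite.equiv (evOneEquiv K)

/-- The algebra is finite-dimensional. -/
theorem alg_finite (K : Type u) [Field K] : Module.Finite K (Alg K) := by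
  have h1 : Module.Finite K (Matrix B B K) := inferInstance
  have h2 : Module.Finite K (Cen K) := inferInstance
  exact Module.Finite.equiv (MulOpposite.opLinearEquiv K)

/-- `Fin 120 → V` is projective for `V` finite-dimensional. -/
theorem proj_BV [Module.Finite K V] : Module.Projective (Rg K) (B → V) := by
  classical
  let b := Module.finBasis K V
  let i : (B → V) →ₗ[Rg K] (Fin (Module.finrank K V) → (B → K)) :=
    LinearMap.pi fun k => lactR (b.coord k)
  let s : (Fin (Module.finrank K V) → (B → K)) →ₗ[Rg K] (B → V) :=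
    ∑ k, (lactR (LinearMap.toSpanSingleton K V (b k))).comp (LinearMap.proj k)
  have : Module.Projective (Rg K) (Fin (Module.finrank K V) → (B → K)) := inferInstance
  refine Module.Projective.of_split i s ?_
  refine LinearMap.ext fun x => ?_
  funext j
  simp only [i, s, LinearMap.comp_apply, LinearMap.sum_apply, LinearMap.proj_apply,
    LinearMap.pi_apply, lactR_apply, Finset.sum_apply, lact_apply,
    LinearMap.toSpanSingleton_apply, Module.Basis.coord_apply, LinearMap.id_apply]
  exact b.sum_repr (x j)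

theorem finite_BV [Module.Finite K V] : Module.Finite (Rg K) (B → V) := by
  have h1 : Module.Finite K (B → V) := inferInstance
  exact Module.Finite.of_restrictScalars_finite K (Rg K) (B → V)

end W450.Rig
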