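/-
More kernel-checked identities: supports and homotopies.
-/
import Pool.Agent.H3.Rig.RigIds

namespace W450.Rig
open X

theorem id_E_P0 : (EE * P10 - (P00 * EE)).chk = true := by decide +kernel
theorem id_W_P0 : (WW * P00 - (P10 * WW)).chk = true := by decide +kernel
theorem id_hom0_0 : ((EE * sg + ta * WW) * P00 - (P00)).chk = true := by decide +kernel
theorem id_hom1_0 : ((sg * EE + WW * ta) * P10 - (P10)).chk = true := by decide +kernel
theorem id_E_P1 : (EE * P11 - (P01 * EE)).chk = true := by decide +kernel
theorem id_W_P1 : (WW * P01 - (P11 * WW)).chk = true := by decide +kernel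
theorem id_hom0_1 : ((EE * sg + ta * WW) * P01 - (P01)).chk = true := by decide +kernel
theorem id_hom1_1 : ((sg * EE + WW * ta) * P11 - (P11)).chk = true := by decide +kernel
theorem id_E_P2 : (EE * P12 - (P02 * EE)).chk = true := by decide +kernel
theorem id_W_P2 : (WW * P02 - (P12 * WW)).chk = true := by decide +kernel
theorem id_hom0_2 : ((EE * sg + ta * WW) * P02 - (P02)).chk = true := by decide +kernel
theorem id_hom1_2 : ((sg * EE + WW * ta) * P12 - (P12)).chk = true := by decide +kernel
theorem id_F_P00 : (FF * P01 - (P00 * FF)).chk = true := by decide +kernel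
theorem id_H_P00 : (HH * P01 - (P00 * HH)).chk = true := by decide +kernel
theorem id_F_P01 : (FF * P02 - (P01 * FF)).chk = true := by decide +kernel
theorem id_H_P01 : (HH * P02 - (P01 * HH)).chk = true := by decide +kernel
theorem id_F_P10 : (FF * P11 - (P10 * FF)).chk = true := by decide +kernel
theorem id_H_P10 : (HH * P11 - (P10 * HH)).chk = true := by decide +kernel
theorem id_F_P11 : (FF * P12 - (P11 * FF)).chk = true := by decide +kernel
theorem id_H_P11 : (HH * P12 - (P11 * HH)).chk = true := by decide +kernel
theorem id_aB : (Ra * RB - (Z)).chk = true := by decide +kernel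
theorem id_BE : (RB * EE - (RA * Ra)).chk = true := by decide +kernel
theorem id_aP02 : (Ra * P02 - (Z)).chk = true := by decide +kernel
theorem id_aP00 : (Ra * P00 - (Z)).chk = true := by decide +kernel

end W450.Rig
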