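/-
Exactness of the explicit resolution.
-/
import Pool.Agent.H3.Rig.RigDD

namespace W450.Rig

universe u

variable {K : Type u} [Field K]
variable {V : Type u} [AddCommGroup V] [Module K V]

namespace SL

variable (S : SL K V)

theorem hom0 {P : Ex} (h : (((X.EE * X.sg + X.ta * X.WW) * P) - P).chk = true) {x : B → V}
    (hx : S.In P x) : S.E (S.sg x) + S.ta (S.W x) = x := by
  have h1 := S.opEq h x
  rw [S.ev_mul] at h1
  simp only [Module.End.mul_apply] at h1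
  unfold In at hx
  rw [hx] at h1
  exact h1

theorem hom1 {P : Ex} (h : (((X.sg * X.EE + X.WW * X.ta) * P) - P).chk = true) {x : B → V}
    (hx : S.In P x) : S.sg (S.E x) + S.W (S.ta x) = x := by
  have h1 := S.opEq h x
  rw [S.ev_mul] at h1
  simp only [Module.End.mul_apply] at h1
  unfold In at hx
  rw [hx] at h1
  exact h1

theorem sg0 {x : B → V} (hx : S.In X.P00 x) : S.In X.P10 (S.sg x) := hx.map id_sgP0
theorem sg1 {x : B → V} (hx : S.In X.P01 x) : S.In X.P11 (S.sg x) := hx.map id_sgP1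
theorem sg2 {x : B → V} (hx : S.In X.P02 x) : S.In X.P12 (S.sg x) := hx.map id_sgP2
theorem ta0 {x : B → V} (hx : S.In X.P10 x) : S.In X.P00 (S.ta x) := hx.map id_taP0
theorem ta1 {x : B → V} (hx : S.In X.P11 x) : S.In X.P01 (S.ta x) := hx.map id_taP1
theorem ta2 {x : B → V} (hx : S.In X.P12 x) : S.In X.P02 (S.ta x) := hx.map id_taP2
theorem E0 {x : B → V} (hx : S.In X.P10 x) : S.In X.P00 (S.E x) := hx.map id_E_P0
theorem E1 {x : B → V} (hx : S.In X.P11 x) : S.In X.P01 (S.E x) := hx.map id_E_P1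
theorem E2 {x : B → V} (hx : S.In X.P12 x) : S.In X.P02 (S.E x) := hx.map id_E_P2
theorem W0 {x : B → V} (hx : S.In X.P00 x) : S.In X.P10 (S.W x) := hx.map id_W_P0
theorem W1 {x : B → V} (hx : S.In X.P01 x) : S.In X.P11 (S.W x) := hx.map id_W_P1
theorem W2 {x : B → V} (hx : S.In X.P02 x) : S.In X.P12 (S.W x) := hx.map id_W_P2
theorem F00 {x : B → V} (hx : S.In X.P01 x) : S.In X.P00 (S.F x) := hx.map id_F_P00
theorem F01 {x : B → V} (hx : S.In X.P02 x) : S.In X.P01 (S.F x) := hx.map id_F_P01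
theorem F10 {x : B → V} (hx : S.In X.P11 x) : S.In X.P10 (S.F x) := hx.map id_F_P10
theorem F11 {x : B → V} (hx : S.In X.P12 x) : S.In X.P11 (S.F x) := hx.map id_F_P11
theorem H00 {x : B → V} (hx : S.In X.P01 x) : S.In X.P00 (S.H x) := hx.map id_H_P00
theorem H01 {x : B → V} (hx : S.In X.P02 x) : S.In X.P01 (S.H x) := hx.map id_H_P01
theorem H10 {x : B → V} (hx : S.In X.P11 x) : S.In X.P10 (S.H x) := hx.map id_H_P10
theorem H11 {x : B → V} (hx : S.In X.P12 x) : S.In X.P11 (S.H x) := hx.map id_H_P11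
theorem z00 {x : B → V} (hx : S.In X.P01 x) : S.In X.P00 (S.rz x) := hx.map id_RzP00
theorem z01 {x : B → V} (hx : S.In X.P02 x) : S.In X.P01 (S.rz x) := hx.map id_RzP01
theorem z10 {x : B → V} (hx : S.In X.P11 x) : S.In X.P10 (S.rz x) := hx.map id_RzP10
theorem z11 {x : B → V} (hx : S.In X.P12 x) : S.In X.P11 (S.rz x) := hx.map id_RzP11
theorem a0 {x : B → V} (hx : S.In X.P10 x) : S.In X.P00 (S.ra x) := hx.map id_RaP0
theorem a1 {x : B → V} (hx : S.In X.P11 x) : S.In X.P01 (S.ra x) := hx.map id_RaP1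
theorem B0 {x : B → V} (hx : S.In X.P00 x) : S.In X.P10 (S.rB x) := hx.map id_RBP0
theorem B1 {x : B → V} (hx : S.In X.P01 x) : S.In X.P11 (S.rB x) := hx.map id_RBP1

/-- Reversed relation. -/
theorem r_EF (x : B → V) : S.E (S.F x) = S.F (S.E x) + S.H (S.ra x) := by
  rw [r_FE]; abel

/-- Reversed relation. -/
theorem r_EHz (x : B → V) : S.E (S.H x) + S.E (S.rz x) = S.H (S.E x) := (S.r_HE x).symm

theorem ex_Do (k : ℤ) {x0 xh xf xx : B → V} (h0 : S.In X.P10 x0) (hh : S.In X.P01 xh)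
    (hf : S.In X.P01 xf) (hx : S.In X.P12 xx) (h : S.Do k (x0, xh, xf, xx) = 0) :
    ∃ y0 yh yf yx : B → V, S.In X.P00 y0 ∧ S.In X.P11 yh ∧ S.In X.P11 yf ∧ S.In X.P02 yx ∧
      S.De (-k) (y0, yh, yf, yx) = (x0, xh, xf, xx) := by
  have c1 : S.E x0 + S.H xh + S.F xf + k • S.ra (S.rz (S.rz xx)) = 0 := congrArg Prod.fst h
  have c2 : S.W xh - S.rB xf - S.F xx = 0 := congrArg (fun p => p.2.1) h
  have c3 : S.W xf + S.H xx = 0 := congrArg (fun p => p.2.2.1) h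
  have c4 : S.E xx = 0 := congrArg (fun p => p.2.2.2) h
  obtain ⟨yx, hyx⟩ : ∃ y, y = S.ta xx := ⟨_, rfl⟩
  have iyx : S.In X.P02 yx := hyx ▸ S.ta2 hx
  have exx : S.W yx = xx := by
    have := S.hom1 id_hom1_2 hx
    rw [c4, map_zero, zero_add] at this
    rw [hyx]; exact this
  obtain ⟨u, hu⟩ : ∃ u, u = xf + (S.H yx - S.rz yx) := ⟨_, rfl⟩
  have iu : S.In X.P01 u := hu ▸ hf.add ((S.H01 iyx).sub (S.z01 iyx))
  have c3' : S.W xf = - S.H xx := eq_neg_of_add_eq_zero_left c3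
  have wu : S.W u = 0 := by
    rw [hu]
    simp only [map_add, map_sub, r_WH, ← r_zW, exx, c3']
    abel
  obtain ⟨yf, hyf⟩ : ∃ y, y = S.sg u := ⟨_, rfl⟩
  have iyf : S.In X.P11 yf := hyf ▸ S.sg1 iu
  have eyf : S.E yf = u := by
    have := S.hom0 id_hom0_1 iu
    rw [wu, map_zero, add_zero] at this
    rw [hyf]; exact this
  obtain ⟨v, hv⟩ : ∃ v, v = xh - S.ra yf - S.F yx := ⟨_, rfl⟩
  have iv : S.In X.P01 v := hv ▸ (hh.sub (S.a1 iyf)).sub (S.F01 iyx)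
  have c2' : S.W xh = S.rB xf + S.F xx := by
    rw [sub_sub] at c2; exact sub_eq_zero.1 c2
  have wv : S.W v = 0 := by
    rw [hv]
    simp only [map_add, map_sub, r_Wa, r_WF, eyf, hu, exx, c2', r_BH, r_zB]
    abel
  obtain ⟨yh, hyh⟩ : ∃ y, y = S.sg v := ⟨_, rfl⟩
  have iyh : S.In X.P11 yh := hyh ▸ S.sg1 iv
  have eyh : S.E yh = v := by
    have := S.hom0 id_hom0_1 iv
    rw [wv, map_zero, add_zero] at this
    rw [hyh]; exact this
  obtain ⟨w, hw⟩ : ∃ w, w = x0 + (S.H yh + S.rz yh) + S.F yf + k • S.rB (S.rz (S.rz yx)) :=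
    ⟨_, rfl⟩
  have iw : S.In X.P10 w := hw ▸ ((h0.add ((S.H10 iyh).add (S.z10 iyh))).add (S.F10 iyf)).add
    ((S.B0 (S.z00 (S.z01 iyx))).zsmul k)
  have ew : S.E w = 0 := by
    rw [hw]
    have c1' : S.E x0 = - (S.H xh + S.F xf + k • S.ra (S.rz (S.rz xx))) := by
      rw [← sub_eq_zero, ← c1]; abel
    simp only [map_add, map_zsmul, r_EHz, r_EF, eyh, eyf, hv, hu, ← r_aW, ← r_zW, exx,
      map_sub, r_HF, S.aux_A iyx, c1']
    abel
  obtain ⟨y0, hy0⟩ : ∃ y, y = S.ta w := ⟨_, rfl⟩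
  have iy0 : S.In X.P00 y0 := hy0 ▸ S.ta0 iw
  have ey0 : S.W y0 = w := by
    have := S.hom1 id_hom1_0 iw
    rw [ew, map_zero, zero_add] at this
    rw [hy0]; exact this
  refine ⟨y0, yh, yf, yx, iy0, iyh, iyf, iyx, ?_⟩
  refine Prod.ext ?_ (Prod.ext ?_ (Prod.ext ?_ ?_))
  · show S.W y0 - (S.H yh + S.rz yh) - S.F yf + (-k) • S.rB (S.rz (S.rz yx)) = x0
    rw [ey0, hw, neg_smul]
    abel
  · show S.E yh + S.ra yf + S.F yx = xh
    rw [eyh, hv]; abel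
  · show S.E yf - (S.H yx - S.rz yx) = xf
    rw [eyf, hu]; abel
  · exact exx

theorem ex_De (c : ℤ) {x0 xh xf xx : B → V} (h0 : S.In X.P00 x0) (hh : S.In X.P11 xh)
    (hf : S.In X.P11 xf) (hx : S.In X.P02 xx)
    (c1 : S.W x0 - (S.H xh + S.rz xh) - S.F xf + c • S.rB (S.rz (S.rz xx)) = 0)
    (c2 : S.E xh + S.ra xf + S.F xx = 0) (c3 : S.E xf - (S.H xx - S.rz xx) = 0)
    (c4 : S.W xx = 0) :
    ∃ y0 yh yf yx : B → V, S.In X.P10 y0 ∧ S.In X.P01 yh ∧ S.In X.P01 yf ∧ S.In X.P12 yx ∧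
      S.Do (1 - c) (y0, yh, yf, yx) = (x0, xh, xf, xx) := by
  obtain ⟨yx, hyx⟩ : ∃ y, y = S.sg xx := ⟨_, rfl⟩
  have iyx : S.In X.P12 yx := hyx ▸ S.sg2 hx
  have exx : S.E yx = xx := by
    have := S.hom0 id_hom0_2 hx
    rw [c4, map_zero, add_zero] at this
    rw [hyx]; exact this
  obtain ⟨u, hu⟩ : ∃ u, u = xf - S.H yx := ⟨_, rfl⟩
  have iu : S.In X.P11 u := hu ▸ hf.sub (S.H11 iyx)
  have c3' : S.E xf = S.H xx - S.rz xx := sub_eq_zero.1 c3
  have eu : S.E u = 0 := by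
    rw [hu, map_sub, c3', ← exx, r_HE, r_zE]
    abel
  obtain ⟨yf, hyf⟩ : ∃ y, y = S.ta u := ⟨_, rfl⟩
  have iyf : S.In X.P01 yf := hyf ▸ S.ta1 iu
  have eyf : S.W yf = u := by
    have := S.hom1 id_hom1_1 iu
    rw [eu, map_zero, zero_add] at this
    rw [hyf]; exact this
  obtain ⟨v, hv⟩ : ∃ v, v = xh + S.rB yf + S.F yx := ⟨_, rfl⟩
  have iv : S.In X.P11 v := hv ▸ (hh.add (S.B1 iyf)).add (S.F11 iyx)
  have c2' : S.E xh = - (S.ra xf + S.F xx) := by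
    rw [add_assoc] at c2; exact eq_neg_of_add_eq_zero_left c2
  have ev : S.E v = 0 := by
    rw [hv]
    simp only [map_add, ← r_aW, eyf, hu, map_sub, c2', r_EF, exx, r_Ha]
    abel
  obtain ⟨yh, hyh⟩ : ∃ y, y = S.ta v := ⟨_, rfl⟩
  have iyh : S.In X.P01 yh := hyh ▸ S.ta1 iv
  have eyh : S.W yh = v := by
    have := S.hom1 id_hom1_1 iv
    rw [ev, map_zero, zero_add] at this
    rw [hyh]; exact this
  obtain ⟨w, hw⟩ : ∃ w, w = x0 - S.H yh - S.F yf - (1 - c) • S.ra (S.rz (S.rz yx)) :=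
    ⟨_, rfl⟩
  have iw : S.In X.P00 w := hw ▸ ((h0.sub (S.H00 iyh)).sub (S.F00 iyf)).sub
    ((S.a0 (S.z10 (S.z11 iyx))).zsmul (1 - c))
  have c1' : S.W x0 = (S.H xh + S.rz xh) + S.F xf - c • S.rB (S.rz (S.rz xx)) := by
    rw [← sub_eq_zero, ← c1]; abel
  have ww : S.W w = 0 := by
    rw [hw]
    simp only [map_sub, map_zsmul, r_WH, r_WF, eyh, eyf, hv, hu, r_Wa, ← r_zE, exx, c1',
      map_add]
    rw [← exx]
    simp only [r_zE, r_BE, r_HF, r_zF, sub_smul, one_smul]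
    abel
  obtain ⟨y0, hy0⟩ : ∃ y, y = S.sg w := ⟨_, rfl⟩
  have iy0 : S.In X.P10 y0 := hy0 ▸ S.sg0 iw
  have ey0 : S.E y0 = w := by
    have := S.hom0 id_hom0_0 iw
    rw [ww, map_zero, add_zero] at this
    rw [hy0]; exact this
  refine ⟨y0, yh, yf, yx, iy0, iyh, iyf, iyx, ?_⟩
  refine Prod.ext ?_ (Prod.ext ?_ (Prod.ext ?_ ?_))
  · show S.E y0 + S.H yh + S.F yf + (1 - c) • S.ra (S.rz (S.rz yx)) = x0
    rw [ey0, hw]
    abel
  · show S.W yh - S.rB yf - S.F yx = xh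
    rw [eyh, hv]; abel
  · show S.W yf + S.H yx = xf
    rw [eyf, hu]; abel
  · exact exx

end SL

end W450.Rig
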