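/-
Exactness of the explicit resolution in low degrees.
-/
import Pool.Agent.H3.Rig.RigExact

namespace W450.Rig

universe u

variable {K : Type u} [Field K]
variable {V : Type u} [AddCommGroup V] [Module K V]

namespace SL

variable (S : SL K V)

theorem opEqP {x y P : Ex} (h : (x * P - (y * P)).chk = true) {v : B → V} (hv : S.In P v) :
    S.ev x v = S.ev y v := by
  have h1 := S.opEq h v
  rw [S.ev_mul, S.ev_mul] at h1
  simp only [Module.End.mul_apply] at h1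
  unfold In at hv
  rwa [hv] at h1

theorem ta_p1 {x : B → V} (h : S.ev X.p1 x = 0) : S.ta x = 0 := by
  have h1 := S.opEq id_tap1 x
  rw [S.ev_mul, Module.End.mul_apply, h, map_zero] at h1
  exact h1.symm

theorem ex_D2 {x0 xh xf xx : B → V} (h0 : S.In X.P00 x0) (hh : S.In X.P11 xh)
    (hf : S.In X.P11 xf) (hx : S.In X.P02 xx) (h : S.D2 (x0, xh, xf, xx) = 0) :
    ∃ y0 yh yf yx : B → V, S.In X.P10 y0 ∧ S.In X.P01 yh ∧ S.In X.P01 yf ∧ S.In X.P12 yx ∧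
      S.Do 1 (y0, yh, yf, yx) = (x0, xh, xf, xx) := by
  have c1 : S.W x0 - (S.H xh + S.rz xh) - S.F xf = 0 := congrArg Prod.fst h
  have c2 : S.E xh + S.ra xf + S.F xx = 0 := congrArg (fun p => p.2.1) h
  have c3 : S.E xf - (S.H xx - S.rz xx) = 0 := congrArg (fun p => p.2.2.1) h
  have e1 : S.H (S.W xx) = 0 := by
    have h1 : S.W (S.E xf - (S.H xx - S.rz xx)) = 0 := by rw [c3, map_zero]
    simp only [map_sub, r_WE, r_WH, ← r_zW] at h1
    rw [zero_sub, neg_eq_zero, add_sub_cancel_right] at h1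
    exact h1
  have e2 : S.ev X.p1 (S.W xx) = 0 := by
    have h1 := S.opEqP (x := X.rp * X.HH) (y := X.p1) id_rp (S.W2 hx)
    rw [← h1, S.ev_mul, Module.End.mul_apply]
    have : S.ev X.HH (S.W xx) = 0 := e1
    rw [this, map_zero]
  have e3 : S.W xx = 0 := by
    have h1 := S.hom0 id_hom0_2 hx
    rw [S.ta_p1 e2, add_zero] at h1
    rw [← h1, r_WE]
  have := S.ex_De 0 h0 hh hf hx (by rw [zero_smul, add_zero]; exact c1) c2 c3 e3
  rw [sub_zero] at this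
  exact this

theorem ex_D1 {x0 xh xf : B → V} (h0 : S.In X.P10 x0) (hh : S.In X.P01 xh)
    (hf : S.In X.P01 xf) (c1 : S.E x0 + S.H xh + S.F xf = 0) :
    ∃ y0 yh yf yx : B → V, S.In X.P00 y0 ∧ S.In X.P11 yh ∧ S.In X.P11 yf ∧ S.In X.P02 yx ∧
      S.D2 (y0, yh, yf, yx) = (x0, xh, xf, 0) := by
  obtain ⟨u, hu⟩ : ∃ u, u = S.W xf := ⟨_, rfl⟩
  have iu : S.In X.P11 u := hu ▸ S.W1 hf
  obtain ⟨w, hw⟩ : ∃ w, w = S.W xh - S.rB xf := ⟨_, rfl⟩
  have e1 : S.F u = - (S.H w + S.rz w) := by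
    have h1 : S.W (S.E x0 + S.H xh + S.F xf) = 0 := by rw [c1, map_zero]
    simp only [map_add, r_WE, r_WH, r_WF] at h1
    rw [hu, hw, ← sub_eq_zero, ← h1]
    simp only [map_sub]
    abel
  have e2 : S.ev X.GG (S.F u) = 0 := by
    rw [e1, map_neg, neg_eq_zero]
    have h1 := S.opEq id_G1 w
    rw [S.evZ] at h1
    exact h1
  have e3 : S.ev X.p1 u - S.ev X.p1 (S.H (S.W (S.ev X.ka u))) = 0 := by
    have h1 := S.opEqP (x := X.p1 - X.p1 * X.HH * X.WW * X.ka) (y := X.GG * X.FF) id_G2 iu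
    rw [S.ev_sub] at h1
    exact h1.trans e2
  obtain ⟨yx, hyx⟩ : ∃ y, y = - S.ev X.ka u := ⟨_, rfl⟩
  have iyx : S.In X.P02 yx := hyx ▸ (iu.map id_kaP).neg
  obtain ⟨u', hu'⟩ : ∃ u', u' = xf + (S.H yx - S.rz yx) := ⟨_, rfl⟩
  have iu' : S.In X.P01 u' := hu' ▸ hf.add ((S.H01 iyx).sub (S.z01 iyx))
  have e4 : S.W u' = u + S.H (S.W yx) := by
    rw [hu', hu]
    simp only [map_add, map_sub, r_WH, ← r_zW]
    abel
  have e5 : S.ev X.p1 (S.W u') = 0 := by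
    rw [e4, hyx, map_add, ← e3]
    simp only [map_neg]
    abel
  obtain ⟨yf, hyf⟩ : ∃ y, y = S.sg u' := ⟨_, rfl⟩
  have iyf : S.In X.P11 yf := hyf ▸ S.sg1 iu'
  have eyf : S.E yf = u' := by
    have := S.hom0 id_hom0_1 iu'
    rw [S.ta_p1 e5, add_zero] at this
    rw [hyf]; exact this
  obtain ⟨v, hv⟩ : ∃ v, v = xh - S.ra yf - S.F yx := ⟨_, rfl⟩
  have iv : S.In X.P01 v := hv ▸ (hh.sub (S.a1 iyf)).sub (S.F01 iyx)
  have e6 : S.E (x0 + S.F yf) + S.H v = 0 := by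
    have c1' : S.E x0 = - (S.H xh + S.F xf) := by
      rw [← sub_eq_zero, ← c1]; abel
    rw [hv]
    simp only [map_add, map_sub, r_EF, eyf, hu', c1', r_HF, S.aux_A iyx]
    abel
  have e7 : S.H (S.W v) + S.rz (S.W v) = 0 := by
    rw [← r_WH, eq_neg_of_add_eq_zero_right e6, map_neg, r_WE, neg_zero]
  have e8 : S.ev X.p1 (S.W v) = 0 := by
    have h1 := S.opEqP (x := X.RH * (X.HH + X.Rz)) (y := X.p1) id_rho (S.W1 iv)
    rw [← h1]
    show S.ev X.RH (S.H (S.W v) + S.rz (S.W v)) = 0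
    rw [e7, map_zero]
  obtain ⟨yh, hyh⟩ : ∃ y, y = S.sg v := ⟨_, rfl⟩
  have iyh : S.In X.P11 yh := hyh ▸ S.sg1 iv
  have eyh : S.E yh = v := by
    have := S.hom0 id_hom0_1 iv
    rw [S.ta_p1 e8, add_zero] at this
    rw [hyh]; exact this
  obtain ⟨w0, hw0⟩ : ∃ w, w = x0 + (S.H yh + S.rz yh) + S.F yf := ⟨_, rfl⟩
  have iw0 : S.In X.P10 w0 := hw0 ▸ (h0.add ((S.H10 iyh).add (S.z10 iyh))).add (S.F10 iyf)
  have ew0 : S.E w0 = 0 := by
    rw [hw0, ← e6, ← eyh]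
    simp only [map_add, r_EHz]
    abel
  obtain ⟨y0, hy0⟩ : ∃ y, y = S.ta w0 := ⟨_, rfl⟩
  have iy0 : S.In X.P00 y0 := hy0 ▸ S.ta0 iw0
  have ey0 : S.W y0 = w0 := by
    have := S.hom1 id_hom1_0 iw0
    rw [ew0, map_zero, zero_add] at this
    rw [hy0]; exact this
  refine ⟨y0, yh, yf, yx, iy0, iyh, iyf, iyx, ?_⟩
  refine Prod.ext ?_ (Prod.ext ?_ (Prod.ext ?_ ?_))
  · show S.W y0 - (S.H yh + S.rz yh) - S.F yf = x0
    rw [ey0, hw0]; abel
  · show S.E yh + S.ra yf + S.F yx = xh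
    rw [eyh, hv]; abel
  · show S.E yf - (S.H yx - S.rz yx) = xf
    rw [eyf, hu']; abel
  · rfl

/-- The quotient map (a linear functional with values in `B → V`). -/
def q : (B → V) →ₗ[K] (B → V) := S.ev X.QQ

theorem q_E (x : B → V) : S.q (S.E x) = 0 := by
  have h1 := S.opEq id_QE x
  rw [S.evZ] at h1
  exact h1

theorem q_F (x : B → V) : S.q (S.F x) = 0 := by
  have h1 := S.opEq id_QF x
  rw [S.evZ] at h1
  exact h1

theorem q_H (x : B → V) : S.q (S.H x) = 0 := by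
  have h1 := S.opEq id_QH x
  rw [S.evZ] at h1
  exact h1

theorem q_dec {x : B → V} (hx : S.In X.P00 x) :
    ∃ y0 yh yf : B → V, S.In X.P10 y0 ∧ S.In X.P01 yh ∧ S.In X.P01 yf ∧
      x = S.E y0 + S.H yh + S.F yf + S.q x := by
  have h1 := S.opEq id_P00 x
  have e0 : S.ev X.P00 x = x := hx
  obtain ⟨t, ht⟩ : ∃ t, t = S.ta (S.W x) := ⟨_, rfl⟩
  have it : S.In X.P00 t := ht ▸ S.ta0 (S.W0 hx)
  refine ⟨S.sg x, S.ev X.SH t, S.ev X.SF t, S.sg0 hx, it.map id_SHP, it.map id_SFP, ?_⟩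
  have e1 : S.ev (X.EE * X.sg * X.P00) x = S.E (S.sg x) := by
    show S.ev X.EE (S.ev X.sg (S.ev X.P00 x)) = _
    rw [e0]; rfl
  have e2 : S.q x = S.ev X.EPS t := by
    show S.ev X.EPS (S.ev X.ta (S.ev X.WW (S.ev X.P00 x))) = _
    rw [e0, ht]; rfl
  have e3 : S.ev ((X.EPS + X.FF * X.SF + X.HH * X.SH) * X.ta * X.WW * X.P00) x =
      S.ev X.EPS t + S.F (S.ev X.SF t) + S.H (S.ev X.SH t) := by
    show S.ev (X.EPS + X.FF * X.SF + X.HH * X.SH)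
      (S.ev X.ta (S.ev X.WW (S.ev X.P00 x))) = _
    rw [e0]
    have : S.ev X.ta (S.ev X.WW x) = t := ht.symm
    rw [this]
    rfl
  rw [e0, S.ev_add] at h1
  have h2 : x = S.E (S.sg x) + (S.ev X.EPS t + S.F (S.ev X.SF t) + S.H (S.ev X.SH t)) := by
    rw [← e1, ← e3]
    exact h1
  rw [e2]
  nth_rewrite 1 [h2]
  abel

end SL

end W450.Rig
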