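/-
The algebra is connected.
-/
import Pool.Agent.H3.Rig.RigHom
import Pool.Agent.H3.Rig.RigDefs

namespace W450.Rig

universe u

variable {K : Type u} [Field K]

/-- Check that an operator only hits the coordinates `c` and `d`. -/
def schk2 (x : Ex) (c d : ℕ) : Bool :=
  (List.range 120).all fun b => (x.row [(1, [], b)]).all fun p =>
    Nat.beq p.2.2 c || Nat.beq p.2.2 d

theorem SL.val_supp2 {V : Type u} [AddCommGroup V] [Module K V] (S : SL K V) (l : FS) (c d : ℕ)
    (h : (l.all fun p => Nat.beq p.2.2 c || Nat.beq p.2.2 d) = true)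
    (v : V) (i : B) (hi : (i : ℕ) ≠ c) (hi' : (i : ℕ) ≠ d) : S.val l v i = 0 := by
  induction l with
  | nil => rfl
  | cons p l ih =>
    simp only [List.all_cons, Bool.and_eq_true, Bool.or_eq_true] at h
    rw [SL.val, Pi.add_apply, ih h.2, add_zero]
    rcases h.1 with h1 | h1
    · rw [Nat.eq_of_beq_eq_true h1, if_neg hi]
    · rw [Nat.eq_of_beq_eq_true h1, if_neg hi']

theorem SL.ev_supp2 {V : Type u} [AddCommGroup V] [Module K V] (S : SL K V) (x : Ex) (c d : B)
    (h : schk2 x c d = true) (y : B → V) (i : B) (hi : i ≠ c) (hi' : i ≠ d) :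
    S.ev x y i = 0 := by
  have key : (LinearMap.proj i : (B → V) →ₗ[K] V) ∘ₗ S.ev x = 0 := by
    apply LinearMap.pi_ext
    intro b v
    show S.ev x (Pi.single b v) i = 0
    rw [← S.val_one, S.ev_val]
    rw [schk2, List.all_eq_true] at h
    exact S.val_supp2 _ c d (h b (List.mem_range.2 b.isLt)) v i
      (fun h' => hi (Fin.ext h')) (fun h' => hi' (Fin.ext h'))
  exact LinearMap.congr_fun key y

/-- Data of a vertex for the connectedness proof. -/
structure CV where
  P : ℕ
  T : ℕ
  g : B
  s : B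
  r : Ex
  hP : P < 13
  hT : 13 ≤ T
  hT' : T < 26
  hr : r.rt = true
  hgs : g ≠ s
  h1 : zchk (nfF ((Ex.tab P).row onesF ++ [(-1, [], (g : ℕ))])) = true
  h2 : zchk (nfF ((Ex.tab T).row onesF ++ [(-1, [], (g : ℕ))])) = true
  h3 : schk2 (Ex.tab T * Ex.tab P) g s = true
  h4 : zchk (nfF (r.row [(1, [], (g : ℕ))] ++ [(-1, [], (s : ℕ))])) = true
  h5 : zchk (nfF (r.row [(1, [], (s : ℕ))])) = true
  h6 : zchk (nfF ((Ex.tab T).row [(1, [], (g : ℕ))] ++ [(-1, [], (g : ℕ))])) = true

/-- vertex -/
def cv0 : CV := ⟨7, 20, 0, 15, X.Ra * X.RA, by decide, by decide, by decide, rfl, by decide,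
  by decide +kernel, by decide +kernel, by decide +kernel, by decide +kernel,
  by decide +kernel, by decide +kernel⟩
/-- vertex -/
def cv1 : CV := ⟨8, 21, 10, 25, X.Ra * X.RA, by decide, by decide, by decide, rfl, by decide,
  by decide +kernel, by decide +kernel, by decide +kernel, by decide +kernel,
  by decide +kernel, by decide +kernel⟩
/-- vertex -/
def cv2 : CV := ⟨9, 22, 14, 29, X.Ra * X.RA, by decide, by decide, by decide, rfl, by decide,
  by decide +kernel, by decide +kernel, by decide +kernel, by decide +kernel,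
  by decide +kernel, by decide +kernel⟩
/-- vertex -/
def cv3 : CV := ⟨10, 23, 90, 105, X.RA * X.Ra, by decide, by decide, by decide, rfl, by decide,
  by decide +kernel, by decide +kernel, by decide +kernel, by decide +kernel,
  by decide +kernel, by decide +kernel⟩
/-- vertex -/
def cv4 : CV := ⟨11, 24, 100, 115, X.RA * X.Ra, by decide, by decide, by decide, rfl,
  by decide, by decide +kernel, by decide +kernel, by decide +kernel, by decide +kernel,
  by decide +kernel, by decide +kernel⟩
/-- vertex -/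
def cv5 : CV := ⟨12, 25, 104, 119, X.RA * X.Ra, by decide, by decide, by decide, rfl,
  by decide, by decide +kernel, by decide +kernel, by decide +kernel, by decide +kernel,
  by decide +kernel, by decide +kernel⟩

/-- The `K`-valued function with value `1` at `b`. -/
abbrev sb (K : Type u) [Field K] (b : B) : B → K := Pi.single b 1

theorem central_vertex (v : CV) (r : Rg K) (hc : ∀ a : Rg K, r * a = a * r) (hi : r * r = r) :
    ∃ α : K, (α = 0 ∨ α = 1) ∧ r • sb K v.g = α • sb K v.g := by
  let S := trivSL K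
  obtain ⟨y, hy⟩ : ∃ y, y = r • sb K v.g := ⟨_, rfl⟩
  let T : Rg K := mkR K (tmat K v.T) (tmat_mem v.T v.hT v.hT')
  have hTo : T • (oneV 1 : B → K) = sb K v.g := S.ev_ones (Ex.tab v.T) v.g v.h2 1
  have hPo : S.ev (Ex.tab v.P) (oneV 1) = sb K v.g := S.ev_ones (Ex.tab v.P) v.g v.h1 1
  have hPrt : (Ex.tab v.P).rt = true := by have := v.hP; simpa [Ex.rt] using this
  have e1 : y = S.ev (Ex.tab v.P) (r • (oneV 1 : B → K)) := by
    rw [S.ev_rsmul _ hPrt, hPo, hy]
  have e2 : T • y = y := by
    rw [hy, ← mul_smul, ← hc, mul_smul]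
    congr 1
    exact S.ev_single (Ex.tab v.T) v.g v.g v.h6 1
  have hsup : ∀ i, i ≠ v.g → i ≠ v.s → y i = 0 := by
    intro i h1 h2
    rw [← e2, e1]
    exact S.ev_supp2 (Ex.tab v.T * Ex.tab v.P) v.g v.s v.h3 _ i h1 h2
  have hdec : y = (y v.g) • sb K v.g + (y v.s) • sb K v.s := by
    funext i
    by_cases h1 : i = v.g
    · subst h1
      simp [sb, v.hgs]
    · by_cases h2 : i = v.s
      · subst h2
        simp [sb, v.hgs.symm]
      · rw [hsup i h1 h2]
        simp [sb, h1, h2]
  obtain ⟨α, hα⟩ : ∃ a, a = y v.g := ⟨_, rfl⟩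
  obtain ⟨β, hβ⟩ : ∃ a, a = y v.s := ⟨_, rfl⟩
  rw [← hα, ← hβ] at hdec
  have hR1 : S.ev v.r (sb K v.g) = sb K v.s := S.ev_single v.r v.g v.s v.h4 1
  have hR2 : S.ev v.r (sb K v.s) = 0 := by
    rw [sb, ← S.val_one, S.ev_val, ← S.nfF_sound, S.val_eq_zero _ v.h5]
  have e3 : r • sb K v.s = α • sb K v.s := by
    rw [← hR1, ← S.ev_rsmul _ v.hr, ← hy, hdec, map_add, map_smul, map_smul, hR1, hR2,
      smul_zero, add_zero]
  have e4 : r • y = y := by
    rw [hy, ← mul_smul, hi]
  have hKr : ∀ (c : K) (x : B → K), r • (c • x) = c • (r • x) := by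
    intro c x
    rw [rg_smul, rg_smul, map_smul]
  have e5 : r • y = (α * α) • sb K v.g + (α * β + β * α) • sb K v.s := by
    nth_rewrite 1 [hdec]
    rw [smul_add, hKr, hKr, e3, ← hy, hdec, smul_add, smul_smul, smul_smul, smul_smul,
      add_assoc, ← add_smul]
  rw [e4, hdec] at e5
  have c1 : α = α * α := by
    have := congrFun e5 v.g
    simpa [sb, v.hgs] using this
  have c2 : β = α * β + β * α := by
    have := congrFun e5 v.s
    simpa [sb, v.hgs.symm] using this
  have c3 : α = 0 ∨ α = 1 := by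
    have : α * (α - 1) = 0 := by linear_combination -c1
    rcases mul_eq_zero.1 this with h | h
    · exact Or.inl h
    · exact Or.inr (sub_eq_zero.1 h)
  have c4 : β = 0 := by
    rcases c3 with h | h
    · rw [h] at c2; linear_combination c2
    · rw [h] at c2; linear_combination -c2
  refine ⟨α, c3, ?_⟩
  rw [← hy, hdec, c4, zero_smul, add_zero]

/-- Comparison of the scalars along an arrow. -/
theorem central_arrow (g g' x : B) (R : Ex) (hR : R.rt = true) (L : ℕ) (hL : 13 ≤ L)
    (hL' : L < 26)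
    (h1 : zchk (nfF (R.row [(1, [], (g' : ℕ))] ++ [(-1, [], (x : ℕ))])) = true)
    (h2 : zchk (nfF ((Ex.tab L).row [(1, [], (g : ℕ))] ++ [(-1, [], (x : ℕ))])) = true)
    (r : Rg K) (hc : ∀ a : Rg K, r * a = a * r) {α α' : K}
    (hα : r • sb K g = α • sb K g) (hα' : r • sb K g' = α' • sb K g') : α = α' := by
  let S := trivSL K
  have e1 : S.ev R (sb K g') = sb K x := S.ev_single R g' x h1 1
  let T : Rg K := mkR K (tmat K L) (tmat_mem L hL hL')
  have e2 : T • sb K g = sb K x := S.ev_single (Ex.tab L) g x h2 1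
  have e3 : r • sb K x = α' • sb K x := by
    rw [← e1, ← S.ev_rsmul _ hR, hα', map_smul]
  have e4 : r • sb K x = α • sb K x := by
    rw [← e2, ← mul_smul, hc, mul_smul, hα, rg_smul, rg_smul, map_smul]
  rw [e3] at e4
  have := congrFun e4 x
  simpa [sb] using this.symm

theorem central_idem (r : Rg K) (hc : ∀ a : Rg K, r * a = a * r) (hi : r * r = r) :
    r = 0 ∨ r = 1 := by
  obtain ⟨a0, b0, h0⟩ := central_vertex cv0 r hc hi
  obtain ⟨a1, b1, h1⟩ := central_vertex cv1 r hc hi
  obtain ⟨a2, b2, h2⟩ := central_vertex cv2 r hc hi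
  obtain ⟨a3, b3, h3⟩ := central_vertex cv3 r hc hi
  obtain ⟨a4, b4, h4⟩ := central_vertex cv4 r hc hi
  obtain ⟨a5, b5, h5⟩ := central_vertex cv5 r hc hi
  have c01 : a0 = a1 := central_arrow 0 10 1 X.Rz rfl 19 (by decide) (by decide)
    (by decide +kernel) (by decide +kernel) r hc h0 h1
  have c12 : a1 = a2 := central_arrow 10 14 11 X.Rz rfl 19 (by decide) (by decide)
    (by decide +kernel) (by decide +kernel) r hc h1 h2
  have c03 : a0 = a3 := central_arrow 0 90 30 X.Ra rfl 13 (by decide) (by decide)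
    (by decide +kernel) (by decide +kernel) r hc h0 h3
  have c14 : a1 = a4 := central_arrow 10 100 40 X.Ra rfl 13 (by decide) (by decide)
    (by decide +kernel) (by decide +kernel) r hc h1 h4
  have c25 : a2 = a5 := central_arrow 14 104 44 X.Ra rfl 13 (by decide) (by decide)
    (by decide +kernel) (by decide +kernel) r hc h2 h5
  subst c01 c12 c03 c14 c25
  have hone : (oneV 1 : B → K) = sb K 0 + sb K 10 + sb K 14 + sb K 90 + sb K 100 + sb K 104 := by
    rw [← (trivSL K).val_ones]
    simp only [onesF, SL.val, sb]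
    simp only [← SL.val_one (trivSL K), SL.val]
    simp only [add_zero, ← add_assoc]
    rfl
  have hr : r • (oneV 1 : B → K) = a0 • (oneV 1 : B → K) := by
    rw [hone]
    simp only [smul_add]
    have g0 : r • sb K 0 = a0 • sb K 0 := h0
    have g1 : r • sb K 10 = a0 • sb K 10 := h1
    have g2 : r • sb K 14 = a0 • sb K 14 := h2
    have g3 : r • sb K 90 = a0 • sb K 90 := h3
    have g4 : r • sb K 100 = a0 • sb K 100 := h4
    have g5 : r • sb K 104 = a0 • sb K 104 := h5
    rw [g0, g1, g2, g3, g4, g5]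
  rcases b0 with h | h
  · left
    apply smul_oneV_inj
    rw [hr, h, zero_smul, zero_smul]
  · right
    apply smul_oneV_inj
    rw [hr, h, one_smul, one_smul]

theorem alg_connected (K : Type u) [Field K] : IsConnectedRing (Alg K) := by
  constructor
  · refine ⟨⟨(lam K 1).unop, 0, fun h => ?_⟩⟩
    have h1 : lam K 1 = 0 := MulOpposite.unop_injective h
    have h2 := lam_oneV (trivSL K) 1 (1 : K)
    rw [h1, zero_smul] at h2
    have h3 := congrFun h2 1
    simp at h3
  · intro c hc hi
    have h1 := central_idem (K := K) (MulOpposite.op c) (fun a => by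
      apply MulOpposite.unop_injective
      rw [MulOpposite.unop_mul, MulOpposite.unop_mul, MulOpposite.unop_op]
      exact (hc _).symm) (by rw [← MulOpposite.op_mul, hi])
    rcases h1 with h | h
    · left; exact MulOpposite.op_injective h
    · right; exact MulOpposite.op_injective h

end W450.Rig
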