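/-
The resolution as a family of projective modules, and vanishing of `Ext`.
-/
import Pool.Agent.H3.Rig.RigHom
import Pool.Agent.H3.Rig.RigCoh
import Pool.Agent.H3.Rig.RigExt

namespace W450.Rig

universe u

variable {K : Type u} [Field K]
variable {V : Type u} [AddCommGroup V] [Module K V]
variable {V' : Type u} [AddCommGroup V'] [Module K V']

namespace SL

/-- The kernel of `1 - p`. -/
def Rsub (p : X4 V →ₗ[Rg K] X4 V) : Submodule (Rg K) (X4 V) := LinearMap.eqLocus p LinearMap.id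

theorem mem_Rsub (p : X4 V →ₗ[Rg K] X4 V) (x : X4 V) : x ∈ Rsub p ↔ p x = x := Iff.rfl

theorem proj_Rsub [Module.Finite K V] (p : X4 V →ₗ[Rg K] X4 V) (hp : ∀ x, p (p x) = p x) :
    Module.Projective (Rg K) (Rsub p) := by
  have h1 : Module.Projective (Rg K) (B → V) := proj_BV
  have h2 : Module.Projective (Rg K) (X4 V) := inferInstance
  refine Module.Projective.of_split (Rsub p).subtype (p.codRestrict (Rsub p) hp) ?_
  refine LinearMap.ext fun x => ?_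
  exact Subtype.ext x.2

variable (S : SL K V)

/-- Four diagonal maps. -/
def pm (a b c d : (B → V) →ₗ[Rg K] (B → V)) : X4 V →ₗ[Rg K] X4 V :=
  a.prodMap (b.prodMap (c.prodMap d))

/-- Projections onto the supports of the terms of the resolution. -/
def pn : ℕ → (X4 V →ₗ[Rg K] X4 V)
  | 0 => pm (S.evR X.P00 rfl) 0 0 0
  | 1 => pm (S.evR X.P10 rfl) (S.evR X.P01 rfl) (S.evR X.P01 rfl) 0
  | n + 2 => if n % 2 = 0 then
      pm (S.evR X.P00 rfl) (S.evR X.P11 rfl) (S.evR X.P11 rfl) (S.evR X.P02 rfl)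
    else pm (S.evR X.P10 rfl) (S.evR X.P01 rfl) (S.evR X.P01 rfl) (S.evR X.P12 rfl)

/-- The terms of the resolution. -/
def Rn (n : ℕ) : Submodule (Rg K) (X4 V) := Rsub (S.pn n)

theorem idem {P : Ex} (h : (P * P - P).chk = true) (x : B → V) :
    S.ev P (S.ev P x) = S.ev P x := S.opEq h x

theorem pn_idem (n : ℕ) (x : X4 V) : S.pn n (S.pn n x) = S.pn n x := by
  obtain ⟨x0, xh, xf, xx⟩ := x
  match n with
  | 0 => exact Prod.ext (S.idem id_PP00_00 x0) rfl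
  | 1 => exact Prod.ext (S.idem id_PP10_10 x0) (Prod.ext (S.idem id_PP01_01 xh)
      (Prod.ext (S.idem id_PP01_01 xf) rfl))
  | n + 2 =>
    rw [pn]
    split_ifs
    · exact Prod.ext (S.idem id_PP00_00 x0) (Prod.ext (S.idem id_PP11_11 xh)
        (Prod.ext (S.idem id_PP11_11 xf) (S.idem id_PP02_02 xx)))
    · exact Prod.ext (S.idem id_PP10_10 x0) (Prod.ext (S.idem id_PP01_01 xh)
        (Prod.ext (S.idem id_PP01_01 xf) (S.idem id_PP12_12 xx)))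

theorem mem_R0 {x : X4 V} : x ∈ S.Rn 0 ↔ S.In X.P00 x.1 ∧ x.2 = 0 := by
  rw [Rn, mem_Rsub]
  constructor
  · intro h
    refine ⟨congrArg Prod.fst h, ?_⟩
    have := congrArg Prod.snd h
    exact this.symm
  · rintro ⟨h1, h2⟩
    exact Prod.ext h1 h2.symm

theorem mem_R1 {x : X4 V} : x ∈ S.Rn 1 ↔ S.In X.P10 x.1 ∧ S.In X.P01 x.2.1 ∧
    S.In X.P01 x.2.2.1 ∧ x.2.2.2 = 0 := by
  rw [Rn, mem_Rsub]
  constructor
  · intro h
    have a2 := congrArg (fun p : X4 V => p.2.1) h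
    have a3 := congrArg (fun p : X4 V => p.2.2.1) h
    have a4 := congrArg (fun p : X4 V => p.2.2.2) h
    exact ⟨congrArg Prod.fst h, a2, a3, a4.symm⟩
  · rintro ⟨h1, h2, h3, h4⟩
    exact Prod.ext h1 (Prod.ext h2 (Prod.ext h3 h4.symm))

theorem mem_Re {x : X4 V} (m : ℕ) : x ∈ S.Rn (2 * m + 2) ↔ S.In X.P00 x.1 ∧ S.In X.P11 x.2.1 ∧
    S.In X.P11 x.2.2.1 ∧ S.In X.P02 x.2.2.2 := by
  rw [Rn, mem_Rsub, pn, if_pos (by omega)]
  constructor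
  · intro h
    have a2 := congrArg (fun p : X4 V => p.2.1) h
    have a3 := congrArg (fun p : X4 V => p.2.2.1) h
    have a4 := congrArg (fun p : X4 V => p.2.2.2) h
    exact ⟨congrArg Prod.fst h, a2, a3, a4⟩
  · rintro ⟨h1, h2, h3, h4⟩
    exact Prod.ext h1 (Prod.ext h2 (Prod.ext h3 h4))

theorem mem_Ro {x : X4 V} (m : ℕ) : x ∈ S.Rn (2 * m + 3) ↔ S.In X.P10 x.1 ∧ S.In X.P01 x.2.1 ∧
    S.In X.P01 x.2.2.1 ∧ S.In X.P12 x.2.2.2 := by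
  rw [Rn, mem_Rsub, show 2 * m + 3 = (2 * m + 1) + 2 by omega, pn, if_neg (by omega)]
  constructor
  · intro h
    have a2 := congrArg (fun p : X4 V => p.2.1) h
    have a3 := congrArg (fun p : X4 V => p.2.2.1) h
    have a4 := congrArg (fun p : X4 V => p.2.2.2) h
    exact ⟨congrArg Prod.fst h, a2, a3, a4⟩
  · rintro ⟨h1, h2, h3, h4⟩
    exact Prod.ext h1 (Prod.ext h2 (Prod.ext h3 h4))

/-- The differentials `D n : R (n+1) → R n`. -/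
def D : ℕ → (X4 V →ₗ[Rg K] X4 V)
  | 0 => S.D1
  | 1 => S.D2
  | n + 2 => if n % 2 = 0 then S.Do ((n / 2 : ℕ) + 1) else S.De (-((n / 2 : ℕ) + 1))

theorem D_even (m : ℕ) : S.D (2 * m + 2) = S.Do ((m : ℤ) + 1) := by
  rw [D, if_pos (by omega)]
  congr 2
  have : 2 * m / 2 = m := by omega
  rw [this]

theorem D_odd (m : ℕ) : S.D (2 * m + 3) = S.De (-((m : ℤ) + 1)) := by
  rw [show 2 * m + 3 = (2 * m + 1) + 2 by omega, D, if_neg (by omega)]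
  congr 3
  have : (2 * m + 1) / 2 = m := by omega
  rw [this]

theorem D_mem (n : ℕ) {x : X4 V} (hx : x ∈ S.Rn (n + 1)) : S.D n x ∈ S.Rn n := by
  match n with
  | 0 =>
    obtain ⟨h1, h2, h3, h4⟩ := S.mem_R1.1 hx
    exact S.mem_R0.2 ⟨((S.E0 h1).add (S.H00 h2)).add (S.F00 h3), rfl⟩
  | 1 =>
    obtain ⟨h1, h2, h3, h4⟩ := (S.mem_Re 0).1 hx
    exact S.mem_R1.2 ⟨((S.W0 h1).sub ((S.H10 h2).add (S.z10 h2))).sub (S.F10 h3),
      ((S.E1 h2).add (S.a1 h3)).add (S.F01 h4), (S.E1 h3).sub ((S.H01 h4).sub (S.z01 h4)), rfl⟩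
  | n + 2 =>
    rcases Nat.even_or_odd' n with ⟨m, rfl | rfl⟩
    · rw [show 2 * m + 2 + 1 = 2 * m + 3 by omega] at hx
      obtain ⟨h1, h2, h3, h4⟩ := (S.mem_Ro m).1 hx
      rw [S.D_even]
      exact (S.mem_Re m).2 ⟨(((S.E0 h1).add (S.H00 h2)).add (S.F00 h3)).add
        ((S.a0 (S.z10 (S.z11 h4))).zsmul _), ((S.W1 h2).sub (S.B1 h3)).sub (S.F11 h4),
        (S.W1 h3).add (S.H11 h4), S.E2 h4⟩
    · rw [show 2 * m + 1 + 2 + 1 = 2 * (m + 1) + 2 by omega] at hx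
      obtain ⟨h1, h2, h3, h4⟩ := (S.mem_Re (m + 1)).1 hx
      rw [show 2 * m + 1 + 2 = 2 * m + 3 by omega, S.D_odd]
      exact (S.mem_Ro m).2 ⟨(((S.W0 h1).sub ((S.H10 h2).add (S.z10 h2))).sub (S.F10 h3)).add
        ((S.B0 (S.z00 (S.z01 h4))).zsmul _), ((S.E1 h2).add (S.a1 h3)).add (S.F01 h4),
        (S.E1 h3).sub ((S.H01 h4).sub (S.z01 h4)), S.W2 h4⟩

theorem D_D (n : ℕ) {x : X4 V} (hx : x ∈ S.Rn (n + 2)) : S.D n (S.D (n + 1) x) = 0 := by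
  match n with
  | 0 =>
    exact S.D1_D2 x ((S.mem_Re 0).1 hx).2.2.2
  | 1 =>
    have h := S.D_even 0
    simp only [mul_zero, zero_add, Nat.cast_zero] at h
    show S.D2 (S.D 2 x) = 0
    rw [h]
    exact S.D2_Do x
  | n + 2 =>
    rcases Nat.even_or_odd' n with ⟨m, rfl | rfl⟩
    · rw [show 2 * m + 2 + 2 = 2 * (m + 1) + 2 by omega] at hx
      rw [show 2 * m + 2 + 1 = 2 * m + 3 by omega, S.D_even, S.D_odd]
      exact S.Do_De _ x ((S.mem_Re (m + 1)).1 hx).2.2.2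
    · rw [show 2 * m + 1 + 2 + 1 = 2 * (m + 1) + 2 by omega,
        show 2 * m + 1 + 2 = 2 * m + 3 by omega, S.D_even, S.D_odd]
      have h := S.De_Do (-((m : ℤ) + 1)) x
      rw [show (1 : ℤ) - -((m : ℤ) + 1) = ((m + 1 : ℕ) : ℤ) + 1 by push_cast; ring] at h
      exact h

theorem D_ex (n : ℕ) {x : X4 V} (hx : x ∈ S.Rn (n + 1)) (h : S.D n x = 0) :
    ∃ y ∈ S.Rn (n + 2), S.D (n + 1) y = x := by
  obtain ⟨x0, xh, xf, xx⟩ := x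
  match n with
  | 0 =>
    obtain ⟨h1, h2, h3, h4⟩ := S.mem_R1.1 hx
    simp only at h1 h2 h3 h4
    subst h4
    obtain ⟨y0, yh, yf, yx, i1, i2, i3, i4, i5⟩ := S.ex_D1 h1 h2 h3 (congrArg Prod.fst h)
    exact ⟨(y0, yh, yf, yx), (S.mem_Re 0).2 ⟨i1, i2, i3, i4⟩, i5⟩
  | 1 =>
    obtain ⟨h1, h2, h3, h4⟩ := (S.mem_Re 0).1 hx
    obtain ⟨y0, yh, yf, yx, i1, i2, i3, i4, i5⟩ := S.ex_D2 h1 h2 h3 h4 h
    refine ⟨(y0, yh, yf, yx), (S.mem_Ro 0).2 ⟨i1, i2, i3, i4⟩, ?_⟩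
    have h := S.D_even 0
    simp only [mul_zero, zero_add, Nat.cast_zero] at h
    show S.D 2 _ = _
    rw [h]
    exact i5
  | n + 2 =>
    rcases Nat.even_or_odd' n with ⟨m, rfl | rfl⟩
    · rw [show 2 * m + 2 + 1 = 2 * m + 3 by omega] at hx
      obtain ⟨h1, h2, h3, h4⟩ := (S.mem_Ro m).1 hx
      rw [S.D_even] at h
      obtain ⟨y0, yh, yf, yx, i1, i2, i3, i4, i5⟩ := S.ex_Do _ h1 h2 h3 h4 h
      refine ⟨(y0, yh, yf, yx), ?_, ?_⟩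
      · rw [show 2 * m + 2 + 2 = 2 * (m + 1) + 2 by omega]
        exact (S.mem_Re (m + 1)).2 ⟨i1, i2, i3, i4⟩
      · rw [show 2 * m + 2 + 1 = 2 * m + 3 by omega, S.D_odd]
        exact i5
    · rw [show 2 * m + 1 + 2 + 1 = 2 * (m + 1) + 2 by omega] at hx
      obtain ⟨h1, h2, h3, h4⟩ := (S.mem_Re (m + 1)).1 hx
      rw [show 2 * m + 1 + 2 = 2 * m + 3 by omega, S.D_odd] at h
      obtain ⟨y0, yh, yf, yx, i1, i2, i3, i4, i5⟩ := S.ex_De (-((m : ℤ) + 1)) h1 h2 h3 h4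
        (congrArg Prod.fst h) (congrArg (fun p => p.2.1) h) (congrArg (fun p => p.2.2.1) h)
        (congrArg (fun p => p.2.2.2) h)
      refine ⟨(y0, yh, yf, yx), ?_, ?_⟩
      · rw [show 2 * m + 1 + 2 + 2 = 2 * (m + 1) + 3 by omega]
        exact (S.mem_Ro (m + 1)).2 ⟨i1, i2, i3, i4⟩
      · rw [show 2 * m + 1 + 2 + 1 = 2 * (m + 1) + 2 by omega, S.D_even]
        rw [show (1 : ℤ) - -((m : ℤ) + 1) = ((m + 1 : ℕ) : ℤ) + 1 by push_cast; ring] at i5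
        exact i5

/-! ### Maps to `W'` -/

variable (S' : SL K V')

/-- Maps out of odd terms. -/
def Go (m0 mh mf mx : V →ₗ[K] V') : X4 V →ₗ[Rg K] S'.Wm :=
  (S'.Ph true 0 m0).coprod ((S'.Ph false 1 mh).coprod
    ((S'.Ph false 1 mf).coprod (S'.Ph true 2 mx)))

/-- Maps out of even terms. -/
def Ge (n0 nh nf nx : V →ₗ[K] V') : X4 V →ₗ[Rg K] S'.Wm :=
  (S'.Ph false 0 n0).coprod ((S'.Ph true 1 nh).coprod
    ((S'.Ph true 1 nf).coprod (S'.Ph false 2 nx)))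

theorem Go_apply (m0 mh mf mx : V →ₗ[K] V') (x : X4 V) :
    S'.Go m0 mh mf mx x = S'.Ph true 0 m0 x.1 + (S'.Ph false 1 mh x.2.1 +
      (S'.Ph false 1 mf x.2.2.1 + S'.Ph true 2 mx x.2.2.2)) := rfl

theorem Ge_apply (m0 mh mf mx : V →ₗ[K] V') (x : X4 V) :
    S'.Ge m0 mh mf mx x = S'.Ph false 0 m0 x.1 + (S'.Ph true 1 mh x.2.1 +
      (S'.Ph true 1 mf x.2.2.1 + S'.Ph false 2 mx x.2.2.2)) := rfl

theorem Go_De (c : ℤ) (m0 mh mf mx : V →ₗ[K] V') (y : X4 V) :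
    S'.Go m0 mh mf mx (S.De c y) =
      S'.Ph true 1 (adj S.e S'.e mh - (adj S.h S'.h m0 + m0)) y.2.1 +
      S'.Ph true 1 (adj S.e S'.e mf - adj S.f S'.f m0 + mh) y.2.2.1 +
      S'.Ph false 2 (adj S.f S'.f mh - (adj S.h S'.h mf - mf)) y.2.2.2 := by
  rw [Go_apply]
  show S'.Ph true 0 m0 (S.W y.1 - (S.H y.2.1 + S.rz y.2.1) - S.F y.2.2.1 +
      c • S.rB (S.rz (S.rz y.2.2.2))) + (S'.Ph false 1 mh
      (S.E y.2.1 + S.ra y.2.2.1 + S.F y.2.2.2) + (S'.Ph false 1 mf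
      (S.E y.2.2.1 - (S.H y.2.2.2 - S.rz y.2.2.2)) + S'.Ph true 2 mx (S.W y.2.2.2))) = _
  simp only [map_add, map_sub, map_zsmul, Ph_W S S', Ph_B S S', Ph_E S S', Ph_F S S', Ph_H S S',
    Ph_z S S', Ph_a S S', Ph_add, Ph_sub, smul_zero, Nat.reduceAdd]
  abel

theorem Go_D2 (m0 mh mf mx : V →ₗ[K] V') (y : X4 V) :
    S'.Go m0 mh mf mx (S.D2 y) =
      S'.Ph true 1 (adj S.e S'.e mh - (adj S.h S'.h m0 + m0)) y.2.1 +
      S'.Ph true 1 (adj S.e S'.e mf - adj S.f S'.f m0 + mh) y.2.2.1 +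
      S'.Ph false 2 (adj S.f S'.f mh - (adj S.h S'.h mf - mf)) y.2.2.2 := by
  rw [← S.Go_De S' 0 m0 mh mf mx y, Go_apply, Go_apply]
  have h1 : (S.De 0 y).1 = (S.D2 y).1 := by
    show _ + (0 : ℤ) • _ = _
    rw [zero_smul, add_zero]
    rfl
  have h2 : (S.De 0 y).2.2.2 = S.W y.2.2.2 := rfl
  have h3 : (S.D2 y).2.2.2 = 0 := rfl
  rw [h1, h2, h3, map_zero, Ph_W S S']
  rfl

theorem Ge_Do (k : ℤ) (n0 nh nf nx : V →ₗ[K] V') (x : X4 V) :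
    S'.Ge n0 nh nf nx (S.Do k x) =
      S'.Go (adj S.e S'.e n0) (adj S.h S'.h n0) (adj S.f S'.f n0)
        (k • n0 + (adj S.e S'.e nx + adj S.f S'.f (-nh) + adj S.h S'.h nf)) x := by
  rw [Ge_apply, Go_apply]
  show S'.Ph false 0 n0 (S.E x.1 + S.H x.2.1 + S.F x.2.2.1 + k • S.ra (S.rz (S.rz x.2.2.2))) +
      (S'.Ph true 1 nh (S.W x.2.1 - S.rB x.2.2.1 - S.F x.2.2.2) +
      (S'.Ph true 1 nf (S.W x.2.2.1 + S.H x.2.2.2) + S'.Ph false 2 nx (S.E x.2.2.2))) = _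
  have h0 : adj S.f S'.f (-nh) = - adj S.f S'.f nh := map_neg _ _
  have h1 : ∀ (i : Bool) (j : ℕ) (m : V →ₗ[K] V') (y : B → V),
      S'.Ph i j (-m) y = - S'.Ph i j m y := by
    intro i j m y
    have := S'.Ph_sub i j (0 : V →ₗ[K] V') m y
    rw [zero_sub, Ph_zero, zero_sub] at this
    exact this
  simp only [map_add, map_sub, map_zsmul, Ph_W S S', Ph_B S S', Ph_E S S', Ph_F S S', Ph_H S S',
    Ph_z S S', Ph_a S S', Ph_add, Ph_zsmul, h0, h1, Nat.reduceAdd]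
  abel

theorem Ge_D1 (n0 nh nf nx mx : V →ₗ[K] V') (x : X4 V) (hx : x.2.2.2 = 0) :
    S'.Ge n0 nh nf nx (S.D1 x) =
      S'.Go (adj S.e S'.e n0) (adj S.h S'.h n0) (adj S.f S'.f n0) mx x := by
  rw [Ge_apply, Go_apply]
  show S'.Ph false 0 n0 (S.E x.1 + S.H x.2.1 + S.F x.2.2.1) +
      (S'.Ph true 1 nh 0 + (S'.Ph true 1 nf 0 + S'.Ph false 2 nx 0)) = _
  simp only [hx, map_add, map_zero, Ph_E S S', Ph_F S S', Ph_H S S', Nat.reduceAdd]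
  abel

theorem Go_surj (g : X4 V →ₗ[Rg K] S'.Wm) : ∃ m0 mh mf mx : V →ₗ[K] V',
    ∀ x : X4 V, S.In X.P10 x.1 → S.In X.P01 x.2.1 → S.In X.P01 x.2.2.1 →
      S.In X.P12 x.2.2.2 → g x = S'.Go m0 mh mf mx x := by
  obtain ⟨m0, h0⟩ := S.Ph_surj S' vd10 (g ∘ₗ LinearMap.inl (Rg K) _ _)
  obtain ⟨mh, hh⟩ := S.Ph_surj S' vd01
    (g ∘ₗ LinearMap.inr (Rg K) _ _ ∘ₗ LinearMap.inl (Rg K) _ _)
  obtain ⟨mf, hf⟩ := S.Ph_surj S' vd01
    (g ∘ₗ LinearMap.inr (Rg K) _ _ ∘ₗ LinearMap.inr (Rg K) _ _ ∘ₗ LinearMap.inl (Rg K) _ _)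
  obtain ⟨mx, hx⟩ := S.Ph_surj S' vd12
    (g ∘ₗ LinearMap.inr (Rg K) _ _ ∘ₗ LinearMap.inr (Rg K) _ _ ∘ₗ LinearMap.inr (Rg K) _ _)
  refine ⟨m0, mh, mf, mx, fun x i0 ih iff ix => ?_⟩
  rw [Go_apply, ← h0 _ i0, ← hh _ ih, ← hf _ iff, ← hx _ ix]
  simp only [LinearMap.comp_apply, LinearMap.inl_apply, LinearMap.inr_apply, ← map_add]
  congr 1
  simp

theorem Ge_surj (g : X4 V →ₗ[Rg K] S'.Wm) : ∃ m0 mh mf mx : V →ₗ[K] V',
    ∀ x : X4 V, S.In X.P00 x.1 → S.In X.P11 x.2.1 → S.In X.P11 x.2.2.1 →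
      S.In X.P02 x.2.2.2 → g x = S'.Ge m0 mh mf mx x := by
  obtain ⟨m0, h0⟩ := S.Ph_surj S' vd00 (g ∘ₗ LinearMap.inl (Rg K) _ _)
  obtain ⟨mh, hh⟩ := S.Ph_surj S' vd11
    (g ∘ₗ LinearMap.inr (Rg K) _ _ ∘ₗ LinearMap.inl (Rg K) _ _)
  obtain ⟨mf, hf⟩ := S.Ph_surj S' vd11
    (g ∘ₗ LinearMap.inr (Rg K) _ _ ∘ₗ LinearMap.inr (Rg K) _ _ ∘ₗ LinearMap.inl (Rg K) _ _)
  obtain ⟨mx, hx⟩ := S.Ph_surj S' vd02
    (g ∘ₗ LinearMap.inr (Rg K) _ _ ∘ₗ LinearMap.inr (Rg K) _ _ ∘ₗ LinearMap.inr (Rg K) _ _)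
  refine ⟨m0, mh, mf, mx, fun x i0 ih iff ix => ?_⟩
  rw [Ge_apply, ← h0 _ i0, ← hh _ ih, ← hf _ iff, ← hx _ ix]
  simp only [LinearMap.comp_apply, LinearMap.inl_apply, LinearMap.inr_apply, ← map_add]
  congr 1
  simp

end SL

end W450.Rig
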